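import Mathlib

/-! Tails and moments of integer valued random variables from exponential moments of the order
`exp (C (Y ^ (8/3) n ^ 2 + Y n ^ (3/4)))`. -/

set_option autoImplicit false

namespace Run7.h537.PT

open Finset

/-- Exponential moments. -/
def ExpM (C : ℝ) (n : ℕ) {ι : Type} (Ω : Finset ι) (w : ι → ℝ) (X : ι → ℕ) : Prop :=
  ∀ Y : ℝ, 0 ≤ Y → ∑ i ∈ Ω, w i * (1 + Y) ^ X i ≤
    Real.exp (C * (Y ^ (8/3:ℝ) * (n:ℝ)^2 + Y * (n:ℝ)^(3/4:ℝ)))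

theorem ExpM.mass {C : ℝ} {n : ℕ} {ι : Type} {Ω : Finset ι} {w : ι → ℝ} {X : ι → ℕ}
    (h : ExpM C n Ω w X) : ∑ i ∈ Ω, w i ≤ 1 := by
  have h1 := h 0 le_rfl
  simpa using h1

theorem exp_half_le {Y : ℝ} (h0 : 0 ≤ Y) (h1 : Y ≤ 1) : Real.exp (Y / 2) ≤ 1 + Y := by
  have h2 : |Y / 2| ≤ 1 := by rw [abs_of_nonneg (by linarith)]; linarith
  have h3 := Real.abs_exp_sub_one_sub_id_le h2
  have h4 := (abs_le.1 h3).2
  nlinarith

theorem chern {C : ℝ} {n : ℕ} {ι : Type} {Ω : Finset ι} {w : ι → ℝ} {X : ι → ℕ}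
    (hw : ∀ i ∈ Ω, 0 ≤ w i) (h : ExpM C n Ω w X) {Y t : ℝ} (h0 : 0 ≤ Y) (h1 : Y ≤ 1) :
    ∑ i ∈ Ω.filter (fun i => t ≤ X i), w i ≤
      Real.exp (-(Y * t / 2) + C * (Y ^ (8/3:ℝ) * (n:ℝ)^2 + Y * (n:ℝ)^(3/4:ℝ))) := by
  have key : ∑ i ∈ Ω.filter (fun i => t ≤ X i), w i * Real.exp (Y * t / 2) ≤
      ∑ i ∈ Ω, w i * (1 + Y) ^ X i := by
    refine le_trans (Finset.sum_le_sum (f := fun i => w i * Real.exp (Y * t / 2))
      (g := fun i => w i * (1 + Y) ^ X i) ?_) ?_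
    · intro i hi
      rw [mem_filter] at hi
      apply mul_le_mul_of_nonneg_left _ (hw i hi.1)
      have h2 : Real.exp (Y * t / 2) ≤ Real.exp (Y / 2) ^ X i := by
        rw [← Real.exp_nat_mul]
        apply Real.exp_le_exp.2
        have := mul_le_mul_of_nonneg_left hi.2 h0
        linarith
      exact h2.trans (pow_le_pow_left₀ (Real.exp_pos _).le (exp_half_le h0 h1) _)
    · apply Finset.sum_le_sum_of_subset_of_nonneg (Finset.filter_subset _ _)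
      intro i hi _
      exact mul_nonneg (hw i hi) (by positivity)
  rw [← Finset.sum_mul] at key
  have h2 := key.trans (h Y h0)
  rw [Real.exp_add, Real.exp_neg, ← div_eq_inv_mul, le_div_iff₀ (Real.exp_pos _)]
  exact h2

theorem tail_of {C : ℝ} (hC : 1 ≤ C) : ∃ c C' : ℝ, 0 < c ∧ 0 < C' ∧ ∀ n : ℕ, 1 ≤ n →
    ∀ {ι : Type} (Ω : Finset ι) (w : ι → ℝ) (X : ι → ℕ), (∀ i ∈ Ω, 0 ≤ w i) →
    (∀ i ∈ Ω, (X i : ℝ) ≤ 18 * (n:ℝ)^2) → ExpM C n Ω w X → ∀ x : ℝ, 0 ≤ x →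
    ∑ i ∈ Ω.filter (fun i => x * (n:ℝ)^(3/4:ℝ) ≤ X i), w i ≤
      C' * Real.exp (-(c * x ^ (8/5:ℝ))) := by
  have hC0 : 0 < C := by linarith
  obtain ⟨ε, hε⟩ : ∃ ε : ℝ, ε = 1 / (19 * C) := ⟨_, rfl⟩
  have hε0 : 0 < ε := by rw [hε]; positivity
  have hεC : ε * C = 1 / 19 := by rw [hε]; field_simp
  have hε1 : ε ≤ 1 / 19 := by nlinarith
  refine ⟨ε / 8, Real.exp (ε / 8 * (4 * C) ^ (8/5:ℝ)), by positivity, Real.exp_pos _, ?_⟩
  intro n hn ι Ω w X hw hX h x hx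
  have hn1 : (1:ℝ) ≤ n := by exact_mod_cast hn
  have hn0 : (0:ℝ) < n := by linarith
  have hmono : ∑ i ∈ Ω.filter (fun i => x * (n:ℝ)^(3/4:ℝ) ≤ X i), w i ≤ 1 :=
    (Finset.sum_le_sum_of_subset_of_nonneg (Finset.filter_subset _ _)
      (fun i hi _ => hw i hi)).trans h.mass
  rcases le_or_gt x (4 * C) with h1 | h1
  · refine hmono.trans ?_
    rw [← Real.exp_add]
    apply Real.one_le_exp
    have : x ^ (8/5:ℝ) ≤ (4 * C) ^ (8/5:ℝ) := Real.rpow_le_rpow hx h1 (by norm_num)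
    nlinarith
  rcases lt_or_ge (19 * (n:ℝ) ^ (5/4:ℝ)) x with h2 | h2
  · have he : Ω.filter (fun i => x * (n:ℝ)^(3/4:ℝ) ≤ X i) = ∅ := by
      rw [Finset.filter_eq_empty_iff]
      intro i hi hle
      have h3 := hX i hi
      have h4 : (n:ℝ)^(5/4:ℝ) * (n:ℝ)^(3/4:ℝ) = (n:ℝ)^2 := by
        rw [← Real.rpow_add hn0, ← Real.rpow_natCast]
        norm_num
      have h5 : 0 < (n:ℝ)^(3/4:ℝ) := by positivity
      have h6 := mul_lt_mul_of_pos_right h2 h5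
      have h7 : (0:ℝ) < (n:ℝ)^2 := by positivity
      nlinarith
    rw [he, Finset.sum_empty]
    positivity
  · have hx0 : 0 < x := by linarith
    obtain ⟨Y, hY⟩ : ∃ Y : ℝ, Y = ε * x ^ (3/5:ℝ) * (n:ℝ) ^ (-(3/4):ℝ) := ⟨_, rfl⟩
    have hY0 : 0 ≤ Y := by rw [hY]; positivity
    have hY1 : Y ≤ 1 := by
      have e1 : x ^ (3/5:ℝ) ≤ 19 * (n:ℝ) ^ (3/4:ℝ) := by
        have e2 := Real.rpow_le_rpow hx h2 (by norm_num : (0:ℝ) ≤ 3/5)
        rw [Real.mul_rpow (by norm_num) (by positivity), ← Real.rpow_mul hn0.le] at e2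
        have e3 : (5/4:ℝ) * (3/5) = 3/4 := by norm_num
        rw [e3] at e2
        have e4 : (19:ℝ) ^ (3/5:ℝ) ≤ 19 := by
          calc (19:ℝ) ^ (3/5:ℝ) ≤ (19:ℝ) ^ (1:ℝ) :=
                Real.rpow_le_rpow_of_exponent_le (by norm_num) (by norm_num)
            _ = 19 := Real.rpow_one _
        exact e2.trans (mul_le_mul_of_nonneg_right e4 (by positivity))
      have e5 : (n:ℝ) ^ (3/4:ℝ) * (n:ℝ) ^ (-(3/4):ℝ) = 1 := by
        rw [← Real.rpow_add hn0]; norm_num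
      have e6 : 0 < (n:ℝ) ^ (-(3/4):ℝ) := by positivity
      calc Y = ε * (x ^ (3/5:ℝ) * (n:ℝ) ^ (-(3/4):ℝ)) := by rw [hY]; ring
        _ ≤ 1/19 * (19 * (n:ℝ) ^ (3/4:ℝ) * (n:ℝ) ^ (-(3/4):ℝ)) := by
            apply mul_le_mul hε1 _ (by positivity) (by norm_num)
            exact mul_le_mul_of_nonneg_right e1 e6.le
        _ = (n:ℝ) ^ (3/4:ℝ) * (n:ℝ) ^ (-(3/4):ℝ) := by ring
        _ = 1 := e5
    have h3 := chern (t := x * (n:ℝ)^(3/4:ℝ)) hw h hY0 hY1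
    refine h3.trans ?_
    have g1 : Y * (x * (n:ℝ)^(3/4:ℝ)) = ε * x ^ (8/5:ℝ) := by
      have e1 : x ^ (3/5:ℝ) * x = x ^ (8/5:ℝ) := by
        nth_rewrite 2 [← Real.rpow_one x]
        rw [← Real.rpow_add hx0]
        norm_num
      have e5 : (n:ℝ) ^ (-(3/4):ℝ) * (n:ℝ) ^ (3/4:ℝ) = 1 := by
        rw [← Real.rpow_add hn0]; norm_num
      calc Y * (x * (n:ℝ)^(3/4:ℝ)) =
          ε * (x ^ (3/5:ℝ) * x) * ((n:ℝ) ^ (-(3/4):ℝ) * (n:ℝ) ^ (3/4:ℝ)) := by rw [hY]; ring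
        _ = _ := by rw [e1, e5, mul_one]
    have g2 : Y ^ (8/3:ℝ) * (n:ℝ)^2 = ε ^ (8/3:ℝ) * x ^ (8/5:ℝ) := by
      rw [hY, Real.mul_rpow (by positivity) (by positivity),
        Real.mul_rpow hε0.le (by positivity), ← Real.rpow_mul hx0.le, ← Real.rpow_mul hn0.le]
      have e1 : (n:ℝ) ^ (-(3/4) * (8/3):ℝ) * (n:ℝ)^2 = 1 := by
        rw [← Real.rpow_natCast, ← Real.rpow_add hn0]
        norm_num
      have e2 : (3/5:ℝ) * (8/3) = 8/5 := by norm_num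
      rw [e2, mul_assoc, e1, mul_one]
    have g3 : Y * (n:ℝ)^(3/4:ℝ) = ε * x ^ (3/5:ℝ) := by
      have e5 : (n:ℝ) ^ (-(3/4):ℝ) * (n:ℝ) ^ (3/4:ℝ) = 1 := by
        rw [← Real.rpow_add hn0]; norm_num
      calc Y * (n:ℝ)^(3/4:ℝ) = ε * x ^ (3/5:ℝ) * ((n:ℝ) ^ (-(3/4):ℝ) * (n:ℝ) ^ (3/4:ℝ)) := by
            rw [hY]; ring
        _ = _ := by rw [e5, mul_one]
    have g4 : ε ^ (8/3:ℝ) * C ≤ ε * (1/19) := by
      have e1 : ε ^ (8/3:ℝ) ≤ ε ^ (2:ℝ) :=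
        Real.rpow_le_rpow_of_exponent_ge hε0 (by linarith) (by norm_num)
      rw [Real.rpow_two] at e1
      have := mul_le_mul_of_nonneg_right e1 hC0.le
      nlinarith
    have g5 : C * x ^ (3/5:ℝ) ≤ x ^ (8/5:ℝ) / 4 := by
      have e1 : x ^ (8/5:ℝ) = x * x ^ (3/5:ℝ) := by
        nth_rewrite 2 [← Real.rpow_one x]
        rw [← Real.rpow_add hx0]
        norm_num
      rw [e1]
      have : 0 < x ^ (3/5:ℝ) := by positivity
      nlinarith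
    have g6 : 0 < x ^ (8/5:ℝ) := by positivity
    have g7 : (1:ℝ) ≤ Real.exp (ε / 8 * (4 * C) ^ (8/5:ℝ)) := by
      apply Real.one_le_exp; positivity
    refine le_trans ?_ (mul_le_mul_of_nonneg_right g7 (Real.exp_pos _).le)
    rw [one_mul]
    apply Real.exp_le_exp.2
    rw [g1, g2, g3]
    have g8 := mul_le_mul_of_nonneg_right g4 g6.le
    have g9 := mul_le_mul_of_nonneg_left g5 hε0.le
    nlinarith

end Run7.h537.PT
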