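import Pool.Agent.Run7.h537.PT.An

/-! Moments from exponential moments, and from lower bounds of the tail. -/

set_option autoImplicit false

namespace Run7.h537.PT

open Finset

theorem fac_split (k : ℕ) : ((k.factorial : ℕ) : ℝ) ≤
    ((k.factorial : ℕ) : ℝ) ^ (5/8:ℝ) * (((k:ℝ) ^ (3/8:ℝ)) ^ k) := by
  have h0 : (0:ℝ) < ((k.factorial : ℕ) : ℝ) := by exact_mod_cast Nat.factorial_pos k
  have h1 : ((k.factorial : ℕ) : ℝ) ≤ (k:ℝ) ^ k := by exact_mod_cast Nat.factorial_le_pow k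
  have h2 : ((k.factorial : ℕ) : ℝ) ^ (3/8:ℝ) ≤ ((k:ℝ) ^ (3/8:ℝ)) ^ k := by
    refine (Real.rpow_le_rpow h0.le h1 (by norm_num)).trans (le_of_eq ?_)
    rw [← Real.rpow_natCast, ← Real.rpow_natCast, ← Real.rpow_mul (by positivity),
      ← Real.rpow_mul (by positivity)]
    congr 1
    ring
  calc ((k.factorial : ℕ) : ℝ) = ((k.factorial : ℕ) : ℝ) ^ (5/8:ℝ) *
        ((k.factorial : ℕ) : ℝ) ^ (3/8:ℝ) := by
        rw [← Real.rpow_add h0]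
        norm_num
    _ ≤ _ := mul_le_mul_of_nonneg_left h2 (by positivity)

theorem pow_le_fac (k : ℕ) : ((k:ℝ) ^ (5/8:ℝ)) ^ k ≤
    Real.exp 1 ^ k * ((k.factorial : ℕ) : ℝ) ^ (5/8:ℝ) := by
  have h0 : (0:ℝ) < ((k.factorial : ℕ) : ℝ) := by exact_mod_cast Nat.factorial_pos k
  have h1 := Real.pow_div_factorial_le_exp (k:ℝ) (by positivity) k
  rw [div_le_iff₀ h0] at h1
  have h2 : ((k:ℝ) ^ (5/8:ℝ)) ^ k = ((k:ℝ) ^ k) ^ (5/8:ℝ) := by
    rw [← Real.rpow_natCast, ← Real.rpow_natCast, ← Real.rpow_mul (by positivity),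
      ← Real.rpow_mul (by positivity)]
    congr 1
    ring
  rw [h2]
  refine (Real.rpow_le_rpow (by positivity) h1 (by norm_num)).trans ?_
  rw [Real.mul_rpow (Real.exp_pos _).le h0.le]
  apply mul_le_mul_of_nonneg_right _ (by positivity)
  rw [← Real.exp_mul, ← Real.exp_nat_mul]
  apply Real.exp_le_exp.2
  have : (0:ℝ) ≤ k := Nat.cast_nonneg k
  linarith

theorem mom_of {C : ℝ} (hC : 1 ≤ C) : ∃ C' : ℝ, 1 ≤ C' ∧ ∀ n : ℕ, 1 ≤ n →
    ∀ {ι : Type} (Ω : Finset ι) (w : ι → ℝ) (X : ι → ℕ), (∀ i ∈ Ω, 0 ≤ w i) →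
    (∀ i ∈ Ω, (X i : ℝ) ≤ 18 * (n:ℝ)^2) → ExpM C n Ω w X → ∀ k : ℕ,
    ∑ i ∈ Ω, w i * (X i : ℝ) ^ k ≤
      C' ^ k * ((k.factorial : ℕ) : ℝ) ^ (5/8:ℝ) * ((n:ℝ) ^ (3/4:ℝ)) ^ k := by
  have hC0 : 0 < C := by linarith
  refine ⟨18 * Real.exp (2 * C), ?_, ?_⟩
  · have : 1 ≤ Real.exp (2 * C) := Real.one_le_exp (by linarith)
    linarith
  intro n hn ι Ω w X hw hX h k
  have hn1 : (1:ℝ) ≤ n := by exact_mod_cast hn
  have hn0 : (0:ℝ) < n := by linarith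
  have hs : 0 < (n:ℝ)^(3/4:ℝ) := by positivity
  have hfac : (0:ℝ) < ((k.factorial : ℕ) : ℝ) := by exact_mod_cast Nat.factorial_pos k
  rcases Nat.eq_zero_or_pos k with hk | hk
  · subst hk
    simp only [pow_zero, mul_one, Nat.factorial_zero, Nat.cast_one, Real.one_rpow]
    exact h.mass
  have hk1 : (1:ℝ) ≤ k := by exact_mod_cast hk
  have hk0 : (0:ℝ) < k := by linarith
  rcases le_or_gt (k:ℝ) ((n:ℝ)^2) with h1 | h1
  · obtain ⟨Y, hY⟩ : ∃ Y : ℝ, Y = (k:ℝ) ^ (3/8:ℝ) * (n:ℝ) ^ (-(3/4):ℝ) := ⟨_, rfl⟩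
    have hY0 : 0 < Y := by rw [hY]; positivity
    have e5 : (n:ℝ) ^ (-(3/4):ℝ) * (n:ℝ) ^ (3/4:ℝ) = 1 := by
      rw [← Real.rpow_add hn0]; norm_num
    have hY1 : Y ≤ 1 := by
      have e1 := Real.rpow_le_rpow hk0.le h1 (by norm_num : (0:ℝ) ≤ 3/8)
      have e2 : ((n:ℝ)^2) ^ (3/8:ℝ) = (n:ℝ) ^ (3/4:ℝ) := by
        rw [← Real.rpow_natCast, ← Real.rpow_mul hn0.le]
        norm_num
      rw [e2] at e1
      rw [hY]
      have e6 : 0 < (n:ℝ) ^ (-(3/4):ℝ) := by positivity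
      have := mul_le_mul_of_nonneg_right e1 e6.le
      rw [mul_comm ((n:ℝ) ^ (3/4:ℝ)), e5] at this
      exact this
    have h2 : ∀ i ∈ Ω, w i * (X i : ℝ) ^ k ≤
        ((k.factorial : ℕ) : ℝ) * (2 / Y) ^ k * (w i * (1 + Y) ^ X i) := by
      intro i hi
      have g1 := Real.pow_div_factorial_le_exp ((X i : ℝ) * (Y / 2)) (by positivity) k
      have g2 : Real.exp ((X i : ℝ) * (Y / 2)) ≤ (1 + Y) ^ X i := by
        rw [Real.exp_nat_mul]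
        exact pow_le_pow_left₀ (Real.exp_pos _).le (exp_half_le hY0.le hY1) _
      have g3 := g1.trans g2
      rw [div_le_iff₀ hfac, mul_pow] at g3
      have g4 : (X i : ℝ) ^ k ≤ ((k.factorial : ℕ) : ℝ) * (2 / Y) ^ k * (1 + Y) ^ X i := by
        have g5 : (X i : ℝ) ^ k = (X i : ℝ) ^ k * (Y / 2) ^ k * (2 / Y) ^ k := by
          rw [mul_assoc, ← mul_pow]
          have : Y / 2 * (2 / Y) = 1 := by field_simp
          rw [this, one_pow, mul_one]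
        rw [g5]
        calc (X i : ℝ) ^ k * (Y / 2) ^ k * (2 / Y) ^ k ≤
              ((1 + Y) ^ X i * ((k.factorial : ℕ) : ℝ)) * (2 / Y) ^ k :=
              mul_le_mul_of_nonneg_right g3 (by positivity)
          _ = _ := by ring
      calc w i * (X i : ℝ) ^ k ≤ w i * (((k.factorial : ℕ) : ℝ) * (2 / Y) ^ k * (1 + Y) ^ X i) :=
            mul_le_mul_of_nonneg_left g4 (hw i hi)
        _ = _ := by ring
    refine (Finset.sum_le_sum h2).trans ?_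
    rw [← Finset.mul_sum]
    have h3 := h Y hY0.le
    have g2 : Y ^ (8/3:ℝ) * (n:ℝ)^2 = k := by
      rw [hY, Real.mul_rpow (by positivity) (by positivity), ← Real.rpow_mul hk0.le,
        ← Real.rpow_mul hn0.le]
      have e1 : (n:ℝ) ^ (-(3/4) * (8/3):ℝ) * (n:ℝ)^2 = 1 := by
        rw [← Real.rpow_natCast, ← Real.rpow_add hn0]
        norm_num
      rw [mul_assoc, e1, mul_one]
      norm_num
    have g3 : Y * (n:ℝ)^(3/4:ℝ) = (k:ℝ) ^ (3/8:ℝ) := by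
      rw [hY, mul_assoc, e5, mul_one]
    have g4 : (k:ℝ) ^ (3/8:ℝ) ≤ k := by
      calc (k:ℝ) ^ (3/8:ℝ) ≤ (k:ℝ) ^ (1:ℝ) :=
            Real.rpow_le_rpow_of_exponent_le hk1 (by norm_num)
        _ = k := Real.rpow_one _
    have h4 : ∑ i ∈ Ω, w i * (1 + Y) ^ X i ≤ Real.exp (2 * C) ^ k := by
      refine h3.trans ?_
      rw [g2, g3, ← Real.exp_nat_mul]
      apply Real.exp_le_exp.2
      nlinarith
    have h5 : (2 / Y) ^ k = 2 ^ k * ((((k:ℝ) ^ (3/8:ℝ)) ^ k)⁻¹ * ((n:ℝ)^(3/4:ℝ)) ^ k) := by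
      have e7 : 2 / Y = 2 * (((k:ℝ) ^ (3/8:ℝ))⁻¹ * (n:ℝ)^(3/4:ℝ)) := by
        rw [div_eq_iff hY0.ne', hY]
        have e8 : (k:ℝ) ^ (3/8:ℝ) ≠ 0 := by positivity
        field_simp
        rw [mul_comm, e5]
      rw [e7, mul_pow, mul_pow, inv_pow]
    have hK : 0 < ((k:ℝ) ^ (3/8:ℝ)) ^ k := by positivity
    have hN : 0 < ((n:ℝ)^(3/4:ℝ)) ^ k := by positivity
    calc ((k.factorial : ℕ) : ℝ) * (2 / Y) ^ k * ∑ i ∈ Ω, w i * (1 + Y) ^ X i ≤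
          ((k.factorial : ℕ) : ℝ) * (2 / Y) ^ k * Real.exp (2 * C) ^ k :=
          mul_le_mul_of_nonneg_left h4 (by positivity)
      _ ≤ (((k.factorial : ℕ) : ℝ) ^ (5/8:ℝ) * (((k:ℝ) ^ (3/8:ℝ)) ^ k)) * (2 / Y) ^ k *
            Real.exp (2 * C) ^ k := by
          apply mul_le_mul_of_nonneg_right _ (by positivity)
          exact mul_le_mul_of_nonneg_right (fac_split k) (by positivity)
      _ = (2 * Real.exp (2 * C)) ^ k * ((k.factorial : ℕ) : ℝ) ^ (5/8:ℝ) *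
            ((n:ℝ)^(3/4:ℝ)) ^ k := by
          rw [h5, mul_pow]
          field_simp
      _ ≤ _ := by
          apply mul_le_mul_of_nonneg_right _ hN.le
          apply mul_le_mul_of_nonneg_right _ (by positivity)
          apply pow_le_pow_left₀ (by positivity)
          have := Real.exp_pos (2 * C)
          linarith
  · have h2 : ∀ i ∈ Ω, w i * (X i : ℝ) ^ k ≤ w i * (18 * (n:ℝ)^2) ^ k := by
      intro i hi
      exact mul_le_mul_of_nonneg_left (pow_le_pow_left₀ (by positivity) (hX i hi) k) (hw i hi)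
    refine (Finset.sum_le_sum h2).trans ?_
    rw [← Finset.sum_mul]
    have h3 : (∑ i ∈ Ω, w i) * (18 * (n:ℝ)^2) ^ k ≤ 1 * (18 * (n:ℝ)^2) ^ k :=
      mul_le_mul_of_nonneg_right h.mass (by positivity)
    refine h3.trans ?_
    rw [one_mul, mul_pow]
    have e1 : (n:ℝ)^2 = (n:ℝ)^(5/4:ℝ) * (n:ℝ)^(3/4:ℝ) := by
      rw [← Real.rpow_add hn0, ← Real.rpow_natCast]
      norm_num
    have e2 : (n:ℝ)^(5/4:ℝ) ≤ (k:ℝ)^(5/8:ℝ) := by
      have := Real.rpow_le_rpow (by positivity) h1.le (by norm_num : (0:ℝ) ≤ 5/8)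
      rw [← Real.rpow_natCast, ← Real.rpow_mul hn0.le] at this
      refine le_trans (le_of_eq ?_) this
      norm_num
    rw [e1, mul_pow]
    calc (18:ℝ) ^ k * (((n:ℝ)^(5/4:ℝ)) ^ k * ((n:ℝ)^(3/4:ℝ)) ^ k) ≤
          (18:ℝ) ^ k * ((Real.exp 1 ^ k * ((k.factorial : ℕ) : ℝ) ^ (5/8:ℝ)) *
            ((n:ℝ)^(3/4:ℝ)) ^ k) := by
          apply mul_le_mul_of_nonneg_left _ (by positivity)
          apply mul_le_mul_of_nonneg_right _ (by positivity)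
          exact (pow_le_pow_left₀ (by positivity) e2 k).trans (pow_le_fac k)
      _ = (18 * Real.exp 1) ^ k * ((k.factorial : ℕ) : ℝ) ^ (5/8:ℝ) * ((n:ℝ)^(3/4:ℝ)) ^ k := by
          rw [mul_pow]; ring
      _ ≤ _ := by
          apply mul_le_mul_of_nonneg_right _ (by positivity)
          apply mul_le_mul_of_nonneg_right _ (by positivity)
          apply pow_le_pow_left₀ (by positivity)
          apply mul_le_mul_of_nonneg_left _ (by norm_num)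
          apply Real.exp_le_exp.2
          linarith

/-- lower bounds of the moments -/
theorem mom_low {c C : ℝ} (hc : 0 < c) (hC : 0 < C) : ∃ c' : ℝ, 0 < c' ∧ ∀ n : ℕ, 1 ≤ n →
    ∀ {ι : Type} (Ω : Finset ι) (w : ι → ℝ) (X : ι → ℕ), (∀ i ∈ Ω, 0 ≤ w i) →
    (∀ x : ℝ, 1 ≤ x → x ≤ c * (n:ℝ)^(5/4:ℝ) → Real.exp (-(C * x ^ (8/5:ℝ))) ≤
      ∑ i ∈ Ω.filter (fun i => x * (n:ℝ)^(3/4:ℝ) ≤ X i), w i) →
    ∀ k : ℕ, 1 ≤ k → (k:ℝ) ≤ c' * (n:ℝ)^2 →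
      c' ^ k * ((k.factorial : ℕ) : ℝ) ^ (5/8:ℝ) * ((n:ℝ) ^ (3/4:ℝ)) ^ k ≤
        ∑ i ∈ Ω, w i * (X i : ℝ) ^ k := by
  obtain ⟨a, ha⟩ : ∃ a : ℝ, a = min c 1 := ⟨_, rfl⟩
  have ha0 : 0 < a := by rw [ha]; exact lt_min hc one_pos
  have hac : a ≤ c := by rw [ha]; exact min_le_left _ _
  have ha1 : a ≤ 1 := by rw [ha]; exact min_le_right _ _
  refine ⟨min (a ^ (8/5:ℝ)) (a * Real.exp (-(2 * C))), lt_min (by positivity) (by positivity), ?_⟩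
  intro n hn ι Ω w X hw h k hk hkn
  obtain ⟨c', hc'⟩ : ∃ c' : ℝ, c' = min (a ^ (8/5:ℝ)) (a * Real.exp (-(2 * C))) := ⟨_, rfl⟩
  rw [← hc'] at hkn ⊢
  have hc'0 : 0 < c' := by rw [hc']; exact lt_min (by positivity) (by positivity)
  have hc'1 : c' ≤ a ^ (8/5:ℝ) := by rw [hc']; exact min_le_left _ _
  have hc'2 : c' ≤ a * Real.exp (-(2 * C)) := by rw [hc']; exact min_le_right _ _
  have hn1 : (1:ℝ) ≤ n := by exact_mod_cast hn
  have hn0 : (0:ℝ) < n := by linarith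
  have hk1 : (1:ℝ) ≤ k := by exact_mod_cast hk
  have hk0 : (0:ℝ) < k := by linarith
  have hfac : (0:ℝ) < ((k.factorial : ℕ) : ℝ) := by exact_mod_cast Nat.factorial_pos k
  have g1 : (k:ℝ) ≤ a ^ (8/5:ℝ) * (n:ℝ)^2 :=
    hkn.trans (mul_le_mul_of_nonneg_right hc'1 (by positivity))
  have g2 : (k:ℝ) ^ (5/8:ℝ) ≤ a * (n:ℝ)^(5/4:ℝ) := by
    have := Real.rpow_le_rpow hk0.le g1 (by norm_num : (0:ℝ) ≤ 5/8)
    rw [Real.mul_rpow (by positivity) (by positivity), ← Real.rpow_mul ha0.le,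
      ← Real.rpow_natCast, ← Real.rpow_mul hn0.le] at this
    refine this.trans (le_of_eq ?_)
    norm_num
  have g3 : (1:ℝ) ≤ (k:ℝ) ^ (5/8:ℝ) := Real.one_le_rpow hk1 (by norm_num)
  obtain ⟨x, hx⟩ : ∃ x : ℝ, x = max 1 (a * (k:ℝ) ^ (5/8:ℝ)) := ⟨_, rfl⟩
  have hx1 : 1 ≤ x := by rw [hx]; exact le_max_left _ _
  have hx2 : a * (k:ℝ) ^ (5/8:ℝ) ≤ x := by rw [hx]; exact le_max_right _ _
  have hx3 : x ≤ (k:ℝ) ^ (5/8:ℝ) := by
    rw [hx]
    apply max_le g3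
    have : 0 < (k:ℝ) ^ (5/8:ℝ) := by positivity
    nlinarith
  have hx4 : x ≤ c * (n:ℝ)^(5/4:ℝ) := by
    refine (hx3.trans g2).trans ?_
    exact mul_le_mul_of_nonneg_right hac (by positivity)
  have h1 := h x hx1 hx4
  have hs : 0 < (n:ℝ)^(3/4:ℝ) := by positivity
  have h2 : Real.exp (-(C * x ^ (8/5:ℝ))) * (x * (n:ℝ)^(3/4:ℝ)) ^ k ≤
      ∑ i ∈ Ω, w i * (X i : ℝ) ^ k := by
    refine (mul_le_mul_of_nonneg_right h1 (by positivity)).trans ?_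
    rw [Finset.sum_mul]
    refine le_trans (Finset.sum_le_sum (f := fun i => w i * (x * (n:ℝ)^(3/4:ℝ)) ^ k)
      (g := fun i => w i * (X i : ℝ) ^ k) ?_) ?_
    · intro i hi
      rw [mem_filter] at hi
      exact mul_le_mul_of_nonneg_left (pow_le_pow_left₀ (by positivity) hi.2 k) (hw i hi.1)
    · apply Finset.sum_le_sum_of_subset_of_nonneg (Finset.filter_subset _ _)
      intro i hi _
      exact mul_nonneg (hw i hi) (by positivity)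
  refine le_trans ?_ h2
  have h3 : x ^ (8/5:ℝ) ≤ k := by
    refine (Real.rpow_le_rpow (by linarith) hx3 (by norm_num)).trans (le_of_eq ?_)
    rw [← Real.rpow_mul hk0.le]
    norm_num
  have h4 : Real.exp (-(2 * C)) ^ k ≤ Real.exp (-(C * x ^ (8/5:ℝ))) := by
    rw [← Real.exp_nat_mul]
    apply Real.exp_le_exp.2
    nlinarith
  have h5 : ((k.factorial : ℕ) : ℝ) ^ (5/8:ℝ) ≤ ((k:ℝ) ^ (5/8:ℝ)) ^ k := by
    have e1 : ((k.factorial : ℕ) : ℝ) ≤ (k:ℝ) ^ k := by exact_mod_cast Nat.factorial_le_pow k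
    refine (Real.rpow_le_rpow hfac.le e1 (by norm_num)).trans (le_of_eq ?_)
    rw [← Real.rpow_natCast, ← Real.rpow_natCast, ← Real.rpow_mul (by positivity),
      ← Real.rpow_mul (by positivity)]
    congr 1
    ring
  calc c' ^ k * ((k.factorial : ℕ) : ℝ) ^ (5/8:ℝ) * ((n:ℝ) ^ (3/4:ℝ)) ^ k ≤
        (a * Real.exp (-(2 * C))) ^ k * ((k:ℝ) ^ (5/8:ℝ)) ^ k * ((n:ℝ) ^ (3/4:ℝ)) ^ k := by
        apply mul_le_mul_of_nonneg_right _ (by positivity)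
        exact mul_le_mul (pow_le_pow_left₀ hc'0.le hc'2 k) h5 (by positivity) (by positivity)
    _ = Real.exp (-(2 * C)) ^ k * ((a * (k:ℝ) ^ (5/8:ℝ)) * (n:ℝ) ^ (3/4:ℝ)) ^ k := by
        rw [mul_pow, mul_pow, mul_pow]; ring
    _ ≤ Real.exp (-(C * x ^ (8/5:ℝ))) * (x * (n:ℝ) ^ (3/4:ℝ)) ^ k := by
        apply mul_le_mul h4 _ (by positivity) (Real.exp_pos _).le
        apply pow_le_pow_left₀ (by positivity)
        exact mul_le_mul_of_nonneg_right hx2 hs.le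

end Run7.h537.PT
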