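import Pool.Agent.Run7.h537.PT.Geo

/-! The cells of the grid: many vertices with the plus event. -/

set_option autoImplicit false

namespace Run7.h537.PT

open H974 H12S Finset Pool.Agent.W92.DP
open Pool.Agent.W52.DPOne (sh E4_mono)

/-- horizontal offset of a cell -/
def ox (n : ℕ) (U : ℤ) (i : ℕ) : ℤ := cc n U i + 9 * U
/-- vertical offset of a cell -/
def oy (n : ℕ) (U : ℤ) (j : ℕ) : ℤ := cc n U j - 18 * U

/-- region of a cell -/
noncomputable def CR (n : ℕ) (U : ℤ) (q : ℕ × ℕ) : Finset Edg :=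
  RE (cc n U q.1 - 17 * U) (cc n U q.1 + 17 * U) (cc n U q.2 - 17 * U) (cc n U q.2 + 17 * U)

/-- translated vertex -/
def tv (s t : ℤ) (v : Vtx) : Vtx := (v.1 + s, v.2 + t)

/-- number of the vertices of the core of a cell with the plus event -/
noncomputable def Nc (L m n : ℕ) (q : ℕ × ℕ) (F : Finset Edg) : ℕ := by
  classical exact ((core4 (L * m : ℕ)).filter
    (fun v => E4 L m (tv (ox n (L * m : ℕ) q.1) (oy n (L * m : ℕ) q.2) v) F)).card

theorem E4_trl (L m : ℕ) (s t : ℤ) (v : Vtx) (F : Finset Edg) :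
    E4 L m v ((trl (-s) (-t)).mp F) ↔ E4 L m (tv s t v) F := by
  have h1 : shc v ↑((trl (-s) (-t)).mp F) = shc (tv s t v) ↑F := by
    ext ⟨x, y, b⟩
    unfold shc tv
    change ((x + v.1, y + v.2, b) : Edg) ∈ (↑((trl (-s) (-t)).mp F) : Set Edg) ↔
      ((x + (v.1 + s), y + (v.2 + t), b) : Edg) ∈ (↑F : Set Edg)
    rw [Finset.mem_coe, LSym.mem_mp, trl_φs, Finset.mem_coe]
    have e1 : x + v.1 - -s = x + (v.1 + s) := by ring
    have e2 : y + v.2 - -t = y + (v.2 + t) := by ring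
    rw [e1, e2]
  have h2 : ∀ β : Bool, ((v.1, v.2, β) : Edg) ∈ (trl (-s) (-t)).mp F ↔
      (((tv s t v).1, (tv s t v).2, β) : Edg) ∈ F := by
    intro β
    rw [LSym.mem_mp, trl_φs]
    unfold tv
    have e1 : v.1 - -s = v.1 + s := by ring
    have e2 : v.2 - -t = v.2 + t := by ring
    rw [e1, e2]
  unfold E4
  rw [h1]
  exact exists_congr fun β => and_congr Iff.rfl (h2 β)

theorem Nc_eq (L m n : ℕ) (q : ℕ × ℕ) (F : Finset Edg) :
    Nc L m n q F = (V4 L m ((trl (-(ox n (L * m : ℕ) q.1)) (-(oy n (L * m : ℕ) q.2))).mp F)).card := by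
  classical
  unfold Nc V4
  congr 1
  apply Finset.filter_congr
  intro v _
  exact (E4_trl L m _ _ v F).symm

theorem sh_RE {v : Vtx} {g : Edg} {a b c d : ℤ} (h : g ∈ RE a b c d) :
    sh v g ∈ RE (a + v.1) (b + v.1) (c + v.2) (d + v.2) := by
  obtain ⟨x, y, _ | _⟩ := g
  · rw [mem_RE_false] at h
    change ((x + v.1, y + v.2, false) : Edg) ∈ _
    rw [mem_RE_false]
    omega
  · rw [mem_RE_true] at h
    change ((x + v.1, y + v.2, true) : Edg) ∈ _
    rw [mem_RE_true]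
    omega

theorem XV_RE {L m : ℕ} (hL : 1 ≤ L) : XV (4 * L * m) m (16 * L * m) ⊆
    RE (-(4 * (L * m : ℕ))) (4 * (L * m : ℕ)) (-(16 * (L * m : ℕ))) (16 * (L * m : ℕ)) := by
  have h1 : m ≤ L * m := Nat.le_mul_of_pos_left m hL
  have e4 : ((4 * L * m : ℕ) : ℤ) = 4 * ((L * m : ℕ) : ℤ) := by push_cast; ring
  have e16 : ((16 * L * m : ℕ) : ℤ) = 16 * ((L * m : ℕ) : ℤ) := by push_cast; ring
  unfold XV boxE
  rw [e4, e16]
  refine union_subset (RE_subset ?_ ?_ ?_ ?_) (RE_subset ?_ ?_ ?_ ?_) <;> omega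

theorem XH_RE {L m : ℕ} (hL : 1 ≤ L) : XH (4 * L * m) m (16 * L * m) ⊆
    RE (-(16 * (L * m : ℕ))) (16 * (L * m : ℕ)) (-(4 * (L * m : ℕ))) (4 * (L * m : ℕ)) := by
  have h1 : m ≤ L * m := Nat.le_mul_of_pos_left m hL
  have e4 : ((4 * L * m : ℕ) : ℤ) = 4 * ((L * m : ℕ) : ℤ) := by push_cast; ring
  have e16 : ((16 * L * m : ℕ) : ℤ) = 16 * ((L * m : ℕ) : ℤ) := by push_cast; ring
  unfold XH boxE
  rw [e4, e16]
  refine union_subset (RE_subset ?_ ?_ ?_ ?_) (RE_subset ?_ ?_ ?_ ?_) <;> omega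

/-- the vertices of the core of a cell -/
theorem tv_core {n : ℕ} {U : ℤ} {q : ℕ × ℕ} {v : Vtx} (hv : v ∈ core4 U) :
    (cc n U q.1 - U ≤ (tv (ox n U q.1) (oy n U q.2) v).1 ∧
      (tv (ox n U q.1) (oy n U q.2) v).1 ≤ cc n U q.1 + U) ∧
    (cc n U q.2 - U ≤ (tv (ox n U q.1) (oy n U q.2) v).2 ∧
      (tv (ox n U q.1) (oy n U q.2) v).2 ≤ cc n U q.2 + U) := by
  rw [Pool.Agent.W801.DPdet.mem_core4] at hv
  unfold tv ox oy
  simp only
  omega

/-- Comparison of the numbers of good vertices. -/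
theorem Nc_mono {L m n : ℕ} (hL : 1 ≤ L) (hm : 1 ≤ m) {q : ℕ × ℕ} {F G : Finset Edg}
    (h1 : ∀ e ∈ RE (cc n (L * m : ℕ) q.1 - 5 * (L * m : ℕ)) (cc n (L * m : ℕ) q.1 + 5 * (L * m : ℕ))
      (cc n (L * m : ℕ) q.2 - 17 * (L * m : ℕ)) (cc n (L * m : ℕ) q.2 + 17 * (L * m : ℕ)),
      e ∈ F → e ∈ G)
    (h2 : ∀ e ∈ RE (cc n (L * m : ℕ) q.1 - 17 * (L * m : ℕ))
      (cc n (L * m : ℕ) q.1 + 17 * (L * m : ℕ))
      (cc n (L * m : ℕ) q.2 - 5 * (L * m : ℕ)) (cc n (L * m : ℕ) q.2 + 5 * (L * m : ℕ)),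
      e ∈ G → e ∈ F) : Nc L m n q F ≤ Nc L m n q G := by
  classical
  unfold Nc
  apply Finset.card_le_card
  intro v hv
  rw [mem_filter] at hv ⊢
  refine ⟨hv.1, ?_⟩
  have hc := tv_core (n := n) (q := q) hv.1
  refine E4_mono hL hm (fun g hg hgF => ?_) (fun g hg hgG => ?_) hv.2
  · refine h1 _ ?_ hgF
    have := sh_RE (v := tv (ox n (L * m : ℕ) q.1) (oy n (L * m : ℕ) q.2) v) (XV_RE hL hg)
    exact RE_subset (by omega) (by omega) (by omega) (by omega) this
  · refine h2 _ ?_ hgG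
    have := sh_RE (v := tv (ox n (L * m : ℕ) q.1) (oy n (L * m : ℕ) q.2) v) (XH_RE hL hg)
    exact RE_subset (by omega) (by omega) (by omega) (by omega) this

theorem Nc_local {L m n : ℕ} (hL : 1 ≤ L) (hm : 1 ≤ m) (q : ℕ × ℕ) (F : Finset Edg) :
    Nc L m n q F = Nc L m n q (F ∩ CR n (L * m : ℕ) q) := by
  have hU : (0:ℤ) ≤ ((L * m : ℕ) : ℤ) := by positivity
  apply le_antisymm
  · refine Nc_mono hL hm (fun e he heF => ?_) (fun e _ heG => (mem_inter.1 heG).1)
    rw [mem_inter]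
    refine ⟨heF, ?_⟩
    unfold CR
    exact RE_subset (by omega) (by omega) (by omega) (by omega) he
  · refine Nc_mono hL hm (fun e _ heG => (mem_inter.1 heG).1) (fun e he heF => ?_)
    rw [mem_inter]
    refine ⟨heF, ?_⟩
    unfold CR
    exact RE_subset (by omega) (by omega) (by omega) (by omega) he

/-- the good event of a cell -/
def CE (c0 : ℝ) (L m n : ℕ) (q : ℕ × ℕ) (F : Finset Edg) : Prop :=
  c0 * (m:ℝ) ^ (3/4:ℝ) ≤ (Nc L m n q F : ℝ)

theorem CE_local {c0 : ℝ} {L m n : ℕ} (hL : 1 ≤ L) (hm : 1 ≤ m) (q : ℕ × ℕ) (F : Finset Edg) :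
    CE c0 L m n q F ↔ CE c0 L m n q (F ∩ CR n (L * m : ℕ) q) := by
  unfold CE
  rw [← Nc_local hL hm]

theorem CR_sub {n : ℕ} {U : ℤ} {K : ℕ} (h : Gm n U K) {q : ℕ × ℕ} (h1 : q.1 < K) (h2 : q.2 < K) :
    CR n U q ⊆ boxE n := by
  have hU := h.U1
  have a1 := h.lo q.1
  have a2 := h.lo q.2
  have a3 := h.hi h1
  have a4 := h.hi h2
  unfold CR boxE
  exact RE_subset (by omega) (by omega) (by omega) (by omega)

/-- the hypothesis on one cell -/
def Hyp (c0 p : ℝ) (L m : ℕ) : Prop := ∀ S : Finset Edg, SA (L * m : ℕ) ⊆ S →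
  p ≤ Pr (fun _ : Edg => (1/2:ℝ)) S (fun F => c0 * (m:ℝ) ^ (3/4:ℝ) ≤ ((V4 L m F).card : ℝ))

theorem CE_pr {c0 p : ℝ} {L m n K : ℕ} (hL : 1 ≤ L) (hm : 1 ≤ m) (h : Gm n (L * m : ℕ) K)
    (hyp : Hyp c0 p L m) {q : ℕ × ℕ} (h1 : q.1 < K) (h2 : q.2 < K) :
    p ≤ Pr (fun _ : Edg => (1/2:ℝ)) (boxE n) (CE c0 L m n q) := by
  have hU := h.U1
  have e1 : Pr (fun _ : Edg => (1/2:ℝ)) (boxE n) (CE c0 L m n q) =
      Pr (fun _ : Edg => (1/2:ℝ)) (CR n (L * m : ℕ) q) (CE c0 L m n q) :=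
    Pr_local (CR_sub h h1 h2) (fun F _ => CE_local hL hm q F)
  have hsub : CR n (L * m : ℕ) q ⊆
      (trl (ox n (L * m : ℕ) q.1) (oy n (L * m : ℕ) q.2)).mp (SA (L * m : ℕ)) := by
    intro e he
    rw [LSym.mem_mp]
    have h3 : RE (-(26 * ((L * m : ℕ) : ℤ))) (8 * ((L * m : ℕ) : ℤ)) ((L * m : ℕ) : ℤ)
        (35 * ((L * m : ℕ) : ℤ)) ⊆ SA (L * m : ℕ) :=
      Pool.Agent.W52.DPInd.RE_sub (by omega) (by omega) (by omega) (by omega) (by omega)
    apply h3
    unfold CR at he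
    obtain ⟨x, y, b⟩ := e
    rw [trl_φs]
    unfold ox oy
    cases b
    · rw [mem_RE_false] at he ⊢
      omega
    · rw [mem_RE_true] at he ⊢
      omega
  have e2 : Pr (fun _ : Edg => (1/2:ℝ))
      ((trl (ox n (L * m : ℕ) q.1) (oy n (L * m : ℕ) q.2)).mp (SA (L * m : ℕ)))
      (CE c0 L m n q) = Pr (fun _ : Edg => (1/2:ℝ)) (CR n (L * m : ℕ) q) (CE c0 L m n q) :=
    Pr_local hsub (fun F _ => CE_local hL hm q F)
  rw [e1, ← e2, LSym.pr]
  refine (hyp _ (Finset.Subset.refl _)).trans (le_of_eq ?_)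
  apply Pr_congr
  intro F _
  unfold CE
  rw [Nc_eq, trl_trl]

theorem CR_disj {n : ℕ} {U : ℤ} (hU : 1 ≤ U) {q q' : ℕ × ℕ} (h : q ≠ q') :
    Disjoint (CR n U q) (CR n U q') := by
  rw [disjoint_left]
  intro e h1 h2
  unfold CR at h1 h2
  have p1 := RE_pos h1
  have p2 := RE_pos h2
  have hne : q.1 ≠ q'.1 ∨ q.2 ≠ q'.2 := by
    by_contra hc
    push Not at hc
    exact h (Prod.ext hc.1 hc.2)
  rcases hne with h3 | h3
  · rcases lt_or_gt_of_ne h3 with h4 | h4
    · have := cc_lt (n := n) (U := U) (by omega) h4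
      omega
    · have := cc_lt (n := n) (U := U) (by omega) h4
      omega
  · rcases lt_or_gt_of_ne h3 with h4 | h4
    · have := cc_lt (n := n) (U := U) (by omega) h4
      omega
    · have := cc_lt (n := n) (U := U) (by omega) h4
      omega

/-- independent cells -/
theorem cells_pr {c0 p : ℝ} {L m n K : ℕ} (hL : 1 ≤ L) (hm : 1 ≤ m) (hp : 0 ≤ p)
    (h : Gm n (L * m : ℕ) K) (hyp : Hyp c0 p L m) (T : Finset (ℕ × ℕ))
    (hT : ∀ q ∈ T, q.1 < K ∧ q.2 < K) :
    p ^ T.card ≤ Pr (fun _ : Edg => (1/2:ℝ)) (boxE n) (fun F => ∀ q ∈ T, CE c0 L m n q F) := by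
  classical
  have hU := h.U1
  have ok : Ok (fun _ : Edg => (1/2:ℝ)) := okq (by norm_num) (by norm_num)
  induction T using Finset.induction_on with
  | empty =>
    rw [card_empty, pow_zero]
    refine le_of_eq ?_
    symm
    exact Pr_true _ (fun F _ q hq => absurd hq (Finset.notMem_empty q))
  | insert q T hq ih =>
    have ih' := ih (fun q hq => hT q (mem_insert_of_mem hq))
    have hq' := hT q (mem_insert_self _ _)
    have h1 := CE_pr hL hm h hyp hq'.1 hq'.2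
    have e : Pr (fun _ : Edg => (1/2:ℝ)) (boxE n)
        (fun F => CE c0 L m n q F ∧ ∀ q ∈ T, CE c0 L m n q F) =
        Pr (fun _ : Edg => (1/2:ℝ)) (boxE n) (CE c0 L m n q) *
        Pr (fun _ : Edg => (1/2:ℝ)) (boxE n) (fun F => ∀ q ∈ T, CE c0 L m n q F) := by
      apply Pr_indep (CR_sub h hq'.1 hq'.2) (T := T.biUnion (CR n (L * m : ℕ)))
      · rw [biUnion_subset]
        intro q'' hq''
        have := hT q'' (mem_insert_of_mem hq'')
        exact CR_sub h this.1 this.2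
      · rw [disjoint_biUnion_right]
        intro q'' hq''
        apply CR_disj (by omega)
        rintro rfl
        exact hq hq''
      · intro F _
        exact CE_local hL hm q F
      · intro F _
        refine forall_congr' fun q'' => forall_congr' fun hq'' => ?_
        have : F ∩ T.biUnion (CR n (L * m : ℕ)) ∩ CR n (L * m : ℕ) q'' =
            F ∩ CR n (L * m : ℕ) q'' := by
          rw [inter_assoc, inter_eq_right.2 (subset_biUnion_of_mem _ hq'')]
        refine (CE_local hL hm q'' F).trans (Iff.trans ?_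
          (CE_local hL hm q'' (F ∩ T.biUnion (CR n (L * m : ℕ)))).symm)
        rw [this]
    rw [card_insert_of_notMem hq, pow_succ]
    calc p ^ T.card * p ≤ Pr (fun _ : Edg => (1/2:ℝ)) (boxE n)
          (fun F => ∀ q ∈ T, CE c0 L m n q F) *
          Pr (fun _ : Edg => (1/2:ℝ)) (boxE n) (CE c0 L m n q) :=
          mul_le_mul ih' h1 hp ((pow_nonneg hp _).trans ih')
      _ = _ := by
          rw [mul_comm, ← e]
          apply Pr_congr
          intro F _
          rw [forall_mem_insert]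

/-- all cells -/
def CA (c0 : ℝ) (L m n K : ℕ) (F : Finset Edg) : Prop :=
  ∀ q ∈ range K ×ˢ range K, CE c0 L m n q F

theorem CA_signed {c0 : ℝ} {L m n K : ℕ} (hL : 1 ≤ L) (hm : 1 ≤ m) (h : Gm n (L * m : ℕ) K)
    {F G : Finset Edg}
    (h0 : F \ (E1 n (L * m : ℕ) K ∪ E2 n (L * m : ℕ) K) =
      G \ (E1 n (L * m : ℕ) K ∪ E2 n (L * m : ℕ) K))
    (h1 : F ∩ E1 n (L * m : ℕ) K ⊆ G ∩ E1 n (L * m : ℕ) K)
    (h2 : G ∩ E2 n (L * m : ℕ) K ⊆ F ∩ E2 n (L * m : ℕ) K)
    (hF : CA c0 L m n K F) : CA c0 L m n K G := by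
  have hU := h.U1
  have hU0 : (0:ℤ) ≤ ((L * m : ℕ) : ℤ) := by omega
  intro q hq
  have hF' := hF q hq
  rw [mem_product, mem_range, mem_range] at hq
  unfold CE at hF' ⊢
  have a1 := cc_lt (n := n) hU0 hq.2
  have a2 := cc_le (n := n) hU0 (Nat.zero_le q.2)
  have hle : Nc L m n q F ≤ Nc L m n q G := by
    apply Nc_mono hL hm
    · intro e he heF
      by_cases hc1 : e ∈ E1 n (L * m : ℕ) K
      · exact (mem_inter.1 (h1 (mem_inter.2 ⟨heF, hc1⟩))).1
      · have hc2 : e ∉ E2 n (L * m : ℕ) K := by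
          intro hc
          have p1 := RE_pos he
          obtain ⟨i', hi', hc⟩ := E2_pos hc
          rcases lt_trichotomy i' q.1 with h5 | h5 | h5
          · have := cc_lt (n := n) hU0 h5
            omega
          · rw [h5] at hc
            omega
          · have := cc_lt (n := n) hU0 h5
            omega
        have h5 : e ∈ F \ (E1 n (L * m : ℕ) K ∪ E2 n (L * m : ℕ) K) := by
          rw [mem_sdiff, mem_union]; exact ⟨heF, fun hc => hc.elim hc1 hc2⟩
        rw [h0] at h5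
        exact (mem_sdiff.1 h5).1
    · intro e he heG
      by_cases hc2 : e ∈ E2 n (L * m : ℕ) K
      · exact (mem_inter.1 (h2 (mem_inter.2 ⟨heG, hc2⟩))).1
      · have hc1 : e ∉ E1 n (L * m : ℕ) K := by
          intro hc
          have p1 := RE_pos he
          rcases E1_pos hc with ⟨i', hi', j', hj', hc⟩ | ⟨i', hi', hc⟩
          · rcases lt_trichotomy j' q.2 with h5 | h5 | h5
            · have := cc_lt (n := n) hU0 h5
              omega
            · rw [h5] at hc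
              omega
            · have := cc_lt (n := n) hU0 h5
              omega
          · unfold ly at hc
            split_ifs at hc <;> omega
        have h5 : e ∈ G \ (E1 n (L * m : ℕ) K ∪ E2 n (L * m : ℕ) K) := by
          rw [mem_sdiff, mem_union]; exact ⟨heG, fun hc => hc.elim hc1 hc2⟩
        rw [← h0] at h5
        exact (mem_sdiff.1 h5).1
  have : (Nc L m n q F : ℝ) ≤ (Nc L m n q G : ℝ) := by exact_mod_cast hle
  exact hF'.trans this

end Run7.h537.PT
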