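import Pool.Agent.Run7.h537.PT.Prob
import Pool.Agent.TH291.NW.Low1

/-! On the snake event, the edges with the plus event are pivotal. -/

set_option autoImplicit false

namespace Run7.h537.PT

open H974 H12S Finset Pool.Agent.W92.DP
open Pool.Agent.W801.DPdet (dcross_meet arms_tr dl_RE dl_LRE)

/-- every cell has a vertex with the plus event -/
def full (L m n K : ℕ) (F : Finset Edg) : Prop :=
  ∀ i < K, ∀ j < K, ∃ v : Vtx, (cc n (L * m : ℕ) i - (L * m : ℕ) ≤ v.1 ∧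
    v.1 ≤ cc n (L * m : ℕ) i + (L * m : ℕ)) ∧ (cc n (L * m : ℕ) j - (L * m : ℕ) ≤ v.2 ∧
    v.2 ≤ cc n (L * m : ℕ) j + (L * m : ℕ)) ∧ E4 L m v F

theorem reach_LRE {F : Finset Edg} {a b c d : ℤ} {u v : Vtx}
    (h : Reach ((↑F : Set Edg) ∩ ↑(LRE a b c d)) u v) :
    Reach ((↑F : Set Edg) ∩ ↑(RE a b c d)) u v := by
  refine h.mono (Set.inter_subset_inter_right (↑F) ?_)
  intro e he
  exact Finset.mem_coe.2 (LRE_subset_RE (Finset.mem_coe.1 he))

theorem reach_TBE {F : Finset Edg} {a b c d : ℤ} {u v : Vtx}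
    (h : Reach ((↑F : Set Edg) ∩ ↑(TBE a b c d)) u v) :
    Reach ((↑F : Set Edg) ∩ ↑(RE a b c d)) u v := by
  refine h.mono (Set.inter_subset_inter_right (↑F) ?_)
  intro e he
  exact Finset.mem_coe.2 (TBE_subset_RE (Finset.mem_coe.1 he))

/-- the three crossings of a gate are connected -/
theorem gate_conn {n : ℕ} {U : ℤ} (hU : 128 ≤ U) {i j : ℕ} {F : Finset Edg}
    (h : gate n U i j F) : ∃ s1 s2 s3 t1 t2 t3 : Vtx,
      (s1.1 = cc n U i - 9 * U ∧ t1.1 = cc n U i + 9 * U ∧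
        Reach ((↑F : Set Edg) ∩ ↑(RE (cc n U i - 9 * U) (cc n U i + 9 * U)
          (cc n U j - 32 * U) (cc n U j - 28 * U))) s1 t1) ∧
      (s2.1 = cc n U i - 9 * U ∧ t2.1 = cc n U i + 9 * U ∧
        Reach ((↑F : Set Edg) ∩ ↑(RE (cc n U i - 9 * U) (cc n U i + 9 * U)
          (cc n U j - 12 * U) (cc n U j - 8 * U))) s2 t2) ∧
      (s3.2 = cc n U j - 32 * U ∧ t3.2 = cc n U j - 8 * U ∧
        Reach ((↑F : Set Edg) ∩ ↑(RE (cc n U i - 9 * U) (cc n U i + 9 * U)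
          (cc n U j - 32 * U) (cc n U j - 8 * U))) s3 t3) ∧
      Reach (↑F : Set Edg) s1 s3 ∧ Reach (↑F : Set Edg) s2 s3 := by
  obtain ⟨⟨y, y', hy, hy', h1⟩, ⟨z, z', hz, hz', h2⟩, ⟨x, x', hx, hx', h3⟩⟩ := h
  have h1' := reach_LRE h1
  have h2' := reach_LRE h2
  have h3' := reach_TBE h3
  refine ⟨_, _, _, _, _, _, ⟨rfl, rfl, h1'⟩, ⟨rfl, rfl, h2'⟩, ⟨rfl, rfl, h3'⟩, ?_, ?_⟩
  · exact (cross_meet (F := (↑F : Set Edg)) (by omega) (by omega) (by omega) (by omega)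
      (by omega) (by omega) h1' (by simp only; omega) (by simp only; omega) h3'
      (by simp only; omega) (by simp only; omega)).mono Set.inter_subset_left
  · exact (cross_meet (F := (↑F : Set Edg)) (by omega) (by omega) (by omega) (by omega)
      (by omega) (by omega) h2' (by simp only; omega) (by simp only; omega) h3'
      (by simp only; omega) (by simp only; omega)).mono Set.inter_subset_left

/-- a vertex which is connected to all crossings of the gate -/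
def GB (n : ℕ) (U : ℤ) (i j : ℕ) (F : Finset Edg) (s : Vtx) : Prop :=
  (∃ s1 t1 : Vtx, s1.1 = cc n U i - 9 * U ∧ t1.1 = cc n U i + 9 * U ∧
        Reach ((↑F : Set Edg) ∩ ↑(RE (cc n U i - 9 * U) (cc n U i + 9 * U)
          (cc n U j - 32 * U) (cc n U j - 28 * U))) s1 t1 ∧ Reach (↑F : Set Edg) s s1) ∧
  (∃ s1 t1 : Vtx, s1.1 = cc n U i - 9 * U ∧ t1.1 = cc n U i + 9 * U ∧
        Reach ((↑F : Set Edg) ∩ ↑(RE (cc n U i - 9 * U) (cc n U i + 9 * U)
          (cc n U j - 12 * U) (cc n U j - 8 * U))) s1 t1 ∧ Reach (↑F : Set Edg) s s1) ∧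
  (∃ s1 t1 : Vtx, s1.2 = cc n U j - 32 * U ∧ t1.2 = cc n U j - 8 * U ∧
        Reach ((↑F : Set Edg) ∩ ↑(RE (cc n U i - 9 * U) (cc n U i + 9 * U)
          (cc n U j - 32 * U) (cc n U j - 8 * U))) s1 t1 ∧ Reach (↑F : Set Edg) s s1)

theorem gate_base {n : ℕ} {U : ℤ} (hU : 128 ≤ U) {i j : ℕ} {F : Finset Edg}
    (h : gate n U i j F) : ∃ s, GB n U i j F s := by
  obtain ⟨s1, s2, s3, t1, t2, t3, ⟨a1, a2, a3⟩, ⟨b1, b2, b3⟩, ⟨c1, c2, c3⟩, h1, h2⟩ :=
    gate_conn hU h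
  exact ⟨s3, ⟨s1, t1, a1, a2, a3, h1.symm⟩, ⟨s2, t2, b1, b2, b3, h2.symm⟩,
    ⟨s3, t3, c1, c2, c3, Reach.refl _ _⟩⟩

/-- one step through a cell -/
theorem cell_step {L m n K : ℕ} (hL : 2 ≤ L) (hm : 64 ≤ m) (_ : Gm n (L * m : ℕ) K)
    {F : Finset Edg} {i j : ℕ} {s s' : Vtx}
    (hs : GB n (L * m : ℕ) i j F s) (hs' : GB n (L * m : ℕ) i (j + 1) F s')
    {v : Vtx} (h1 : cc n (L * m : ℕ) i - (L * m : ℕ) ≤ v.1)
    (h2 : v.1 ≤ cc n (L * m : ℕ) i + (L * m : ℕ)) (h3 : cc n (L * m : ℕ) j - (L * m : ℕ) ≤ v.2)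
    (h4 : v.2 ≤ cc n (L * m : ℕ) j + (L * m : ℕ)) (hE : E4 L m v F) :
    Reach (↑F : Set Edg) s s' := by
  obtain ⟨U, hUdef⟩ : ∃ U : ℤ, U = ((L * m : ℕ) : ℤ) := ⟨_, rfl⟩
  have hU : 128 ≤ U := by
    rw [hUdef]
    have : 2 * 64 ≤ L * m := Nat.mul_le_mul hL hm
    exact_mod_cast this
  rw [← hUdef] at hs hs' h1 h2 h3 h4
  obtain ⟨β, hβ, ⟨a, a', hor, ⟨w, hw, hr⟩, ⟨w', hw', hr'⟩⟩, -⟩ :=
    arms_tr Pool.Agent.W571.DParms.arms hL hm hE hUdef
  have ha : v.2 ≤ a.2 ∧ a.2 ≤ v.2 + 1 ∧ v.2 ≤ a'.2 ∧ a'.2 ≤ v.2 + 1 := by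
    have e1 : v.2 ≤ (tgt (v.1, v.2, β)).2 ∧ (tgt (v.1, v.2, β)).2 ≤ v.2 + 1 := by
      cases β
      · rw [tgt_false]; simp only; omega
      · rw [tgt_true]; simp only; omega
    rcases hor with ⟨rfl, rfl⟩ | ⟨rfl, rfl⟩ <;> omega
  obtain ⟨-, ⟨s1, t1, b1, b2, b3, b4⟩, -⟩ := hs
  obtain ⟨⟨s2, t2, d1, d2, d3, d4⟩, -, -⟩ := hs'
  rw [cc_succ] at d3
  have p1 : Reach (↑F ∩ ↑(RE (v.1 - 4 * U) (v.1 + 4 * U) (v.2 - 16 * U) (v.2 + 16 * U))) w a :=
    (hr.mono Set.sdiff_subset).symm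
  have p2 : Reach (↑F ∩ ↑(RE (v.1 - 4 * U) (v.1 + 4 * U) (v.2 - 16 * U) (v.2 + 16 * U))) a' w' :=
    hr'.mono Set.sdiff_subset
  have m1 := cross_meet (F := (↑F : Set Edg)) (by omega) (by omega) (by omega) (by omega)
    (by omega) (by omega) b3 (by omega) (by omega) p1 (by omega) (by omega)
  have m2 := cross_meet (F := (↑F : Set Edg)) (by omega) (by omega) (by omega) (by omega)
    (by omega) (by omega) d3 (by omega) (by omega) p2 (by omega) (by omega)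
  have q1 : Reach (↑F : Set Edg) s w := b4.trans (m1.mono Set.inter_subset_left)
  have q2 : Reach (↑F : Set Edg) w a := p1.mono Set.inter_subset_left
  have q3 : Reach (↑F : Set Edg) a a' := by
    apply Adj.reach
    refine ⟨(v.1, v.2, β), Finset.mem_coe.2 hβ, ?_⟩
    rcases hor with ⟨rfl, rfl⟩ | ⟨rfl, rfl⟩
    · exact Or.inl ⟨rfl, rfl⟩
    · exact Or.inr ⟨rfl, rfl⟩
  have q5 : Reach (↑F : Set Edg) s2 a' := m2.mono Set.inter_subset_left
  exact ((q1.trans q2).trans q3).trans (q5.symm.trans d4.symm)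

/-- all the gates of a lane are connected -/
theorem lane_conn {L m n K : ℕ} (hL : 2 ≤ L) (hm : 64 ≤ m) (hG : Gm n (L * m : ℕ) K)
    {F : Finset Edg} (hO : openEv n (L * m : ℕ) K F) (hfull : full L m n K F) {i : ℕ}
    (hi : i < K) {s : Vtx} (hs : GB n (L * m : ℕ) i 0 F s) :
    ∀ j ≤ K, ∀ s', GB n (L * m : ℕ) i j F s' → Reach (↑F : Set Edg) s s' := by
  intro j
  induction j with
  | zero =>
    intro _ s' hs'
    obtain ⟨⟨s1, t1, b1, b2, b3, b4⟩, -, s3, t3, c1, c2, c3, c4⟩ := hs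
    obtain ⟨⟨s2, t2, d1, d2, d3, d4⟩, -, s4, t4, e1, e2, e3, e4⟩ := hs'
    have hU := hG.U1
    have m1 := cross_meet (F := (↑F : Set Edg)) (by omega) (by omega) (by omega) (by omega)
      (by omega) (by omega) b3 (by omega) (by omega) e3 (by omega) (by omega)
    exact (b4.trans (m1.mono Set.inter_subset_left)).trans e4.symm
  | succ j ih =>
    intro hj s' hs'
    obtain ⟨s'', hs''⟩ := gate_base hG.U1 (hO.1 i hi j (by omega))
    obtain ⟨v, ⟨h1, h2⟩, ⟨h3, h4⟩, hE⟩ := hfull i hi j (by omega)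
    exact (ih (by omega) s'' hs'').trans (cell_step hL hm hG hs'' hs' h1 h2 h3 h4 hE)

/-- a connection meets the gate of a lane -/
theorem conn_meet {n : ℕ} {U : ℤ} {K : ℕ} (hG : Gm n U K) {F : Finset Edg} {i i' : ℕ}
    (hx1 : lx n U i ≤ cc n U i' - 9 * U) (hx2 : cc n U i' + 9 * U ≤ rx n U K i) {y y' : ℤ}
    (h : Reach (↑F ∩ ↑(LRE (lx n U i) (rx n U K i) (ly n U K i) (ly n U K i + 4 * U)))
      (lx n U i, y) (rx n U K i, y')) {s : Vtx}
    (hs : GB n U i' (if i % 2 = 0 then 0 else K) F s) :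
    Reach (↑F : Set Edg) (lx n U i, y) s := by
  have hU := hG.U1
  obtain ⟨-, -, s3, t3, c1, c2, c3, c4⟩ := hs
  have h' := reach_LRE h
  have hy : ly n U K i = if i % 2 = 0 then cc n U 0 - 32 * U else cc n U K - 12 * U := rfl
  have m1 : Reach ((↑F : Set Edg) ∩ ↑(RE (lx n U i) (rx n U K i)
      (cc n U (if i % 2 = 0 then 0 else K) - 32 * U)
      (cc n U (if i % 2 = 0 then 0 else K) - 8 * U))) (lx n U i, y) s3 := by
    split_ifs at hy c1 c2 c3 ⊢ with h1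
    · exact cross_meet (F := (↑F : Set Edg)) (by omega) (by omega) (by omega) (by omega)
        (by omega) (by omega) h' (by simp only; omega) (by simp only; omega) c3 (by omega)
        (by omega)
    · exact cross_meet (F := (↑F : Set Edg)) (by omega) (by omega) (by omega) (by omega)
        (by omega) (by omega) h' (by simp only; omega) (by simp only; omega) c3 (by omega)
        (by omega)
  exact (m1.mono Set.inter_subset_left).trans c4.symm

/-- the left side and the right side are connected -/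
theorem crossed {L m n K : ℕ} (hL : 2 ≤ L) (hm : 64 ≤ m) (hG : Gm n (L * m : ℕ) K)
    {F : Finset Edg} (hO : openEv n (L * m : ℕ) K F) (hfull : full L m n K F) :
    ∃ y y' : ℤ, (-(n:ℤ) ≤ y ∧ y ≤ n) ∧ (-(n:ℤ) ≤ y' ∧ y' ≤ n) ∧
      Reach (↑F : Set Edg) (-(n:ℤ), y) ((n:ℤ), y') := by
  obtain ⟨U, hUdef⟩ : ∃ U : ℤ, U = ((L * m : ℕ) : ℤ) := ⟨_, rfl⟩
  rw [← hUdef] at hG hO
  have hU := hG.U1
  have hK := hG.fit
  have hK1 := hG.K1
  have hlo := hG.lo
  have hyb : ∀ i, -(n:ℤ) ≤ ly n U K i ∧ ly n U K i + 4 * U ≤ n := by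
    intro i
    have a0 := hlo 0
    have a1 := hlo K
    have a2 : cc n U 0 ≤ cc n U K := cc_le (by omega) (Nat.zero_le K)
    unfold ly
    split_ifs <;> omega
  have main : ∀ i ≤ K, ∃ y y' : ℤ, (-(n:ℤ) ≤ y ∧ y ≤ n) ∧ (-(n:ℤ) ≤ y' ∧ y' ≤ n) ∧
      Reach (↑F : Set Edg) (-(n:ℤ), y) (rx n U K i, y') ∧
      ∃ y2 : ℤ, Reach (↑F : Set Edg) (-(n:ℤ), y) (lx n U i, y2) ∧
        Reach (↑F ∩ ↑(LRE (lx n U i) (rx n U K i) (ly n U K i) (ly n U K i + 4 * U)))
      (lx n U i, y2) (rx n U K i, y') := by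
    intro i
    induction i with
    | zero =>
      intro _
      obtain ⟨y, y', hy, hy', h1⟩ := hO.2 0 (Nat.zero_le K)
      have h2 := hyb 0
      have e : lx n U 0 = -(n:ℤ) := by unfold lx; rw [if_pos rfl]
      refine ⟨y, y', by omega, by omega, ?_, y, ?_, h1⟩
      · rw [← e]
        exact h1.mono Set.inter_subset_left
      · rw [e]
        exact Reach.refl _ _
    | succ i ih =>
      intro hi
      obtain ⟨y, y', hy, hy', h1, y2, h2, h3⟩ := ih (by omega)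
      obtain ⟨z, z', hz, hz', h4⟩ := hO.2 (i + 1) hi
      have h5 := hyb (i + 1)
      have hiK : i < K := by omega
      -- the lane `i`
      obtain ⟨s, hs⟩ := gate_base hU (hO.1 i hiK 0 (Nat.zero_le K))
      obtain ⟨sa, hsa⟩ := gate_base hU (hO.1 i hiK (if i % 2 = 0 then 0 else K)
        (by split_ifs <;> omega))
      obtain ⟨sb, hsb⟩ := gate_base hU (hO.1 i hiK (if (i + 1) % 2 = 0 then 0 else K)
        (by split_ifs <;> omega))
      have l1 : Reach (↑F : Set Edg) (lx n U i, y2) sa := by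
        refine conn_meet hG ?_ ?_ h3 hsa
        · have := hlo i
          unfold lx
          split_ifs with h6
          · omega
          · have := cc_lt (n := n) (U := U) (by omega) (show i - 1 < i by omega)
            omega
        · unfold rx
          rw [if_neg (by omega)]
      have l2 : Reach (↑F : Set Edg) (lx n U (i + 1), z) sb := by
        refine conn_meet hG ?_ ?_ h4 hsb
        · unfold lx
          rw [if_neg (by omega), Nat.add_sub_cancel]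
        · have := hG.hi hiK
          unfold rx
          split_ifs with h6
          · omega
          · rw [cc_succ]; omega
      rw [hUdef] at hs hsa hsb hG hO
      have l3 := lane_conn hL hm hG hO hfull hiK hs _ (by split_ifs <;> omega) sa hsa
      have l4 := lane_conn hL hm hG hO hfull hiK hs _ (by split_ifs <;> omega) sb hsb
      have l5 : Reach (↑F : Set Edg) (-(n:ℤ), y) (lx n U (i + 1), z) :=
        ((h2.trans l1).trans l3.symm).trans (l4.trans l2.symm)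
      exact ⟨y, z', hy, by omega, l5.trans (h4.mono Set.inter_subset_left), z, l5, h4⟩
  obtain ⟨y, y', hy, hy', h1, -⟩ := main K le_rfl
  have e : rx n U K K = n := by unfold rx; rw [if_pos rfl]
  rw [e] at h1
  exact ⟨y, y', hy, hy', h1⟩

theorem RE_LRE {N a b c d : ℤ} (h1 : -N < a) (h2 : b < N) (h3 : -N ≤ c) (h4 : d ≤ N) :
    RE a b c d ⊆ LRE (-N) N (-N) N := by
  rintro ⟨x, y, _ | _⟩ he
  · rw [mem_RE_false] at he
    rw [mem_LRE_false]
    omega
  · rw [mem_RE_true] at he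
    rw [mem_LRE_true]
    omega

/-- the dual path through the edge -/
theorem blocked {L m n K : ℕ} (hL : 2 ≤ L) (hm : 64 ≤ m) (hG : Gm n (L * m : ℕ) K)
    {F : Finset Edg} (hW : wallEv n (L * m : ℕ) K F) {i j : ℕ}
    (hi : i < K) (hj : j < K) {v : Vtx} (h1 : cc n (L * m : ℕ) i - (L * m : ℕ) ≤ v.1)
    (h2 : v.1 ≤ cc n (L * m : ℕ) i + (L * m : ℕ)) (h3 : cc n (L * m : ℕ) j - (L * m : ℕ) ≤ v.2)
    (h4 : v.2 ≤ cc n (L * m : ℕ) j + (L * m : ℕ)) (hE : E4 L m v F) :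
    ∃ β : Bool, ((v.1, v.2, β) : Edg) ∈ F ∧
      ¬ LRc (-(n:ℤ)) n (-(n:ℤ)) n (F.erase (v.1, v.2, β)) := by
  obtain ⟨U, hUdef⟩ : ∃ U : ℤ, U = ((L * m : ℕ) : ℤ) := ⟨_, rfl⟩
  rw [← hUdef] at hG hW h1 h2 h3 h4
  have hU := hG.U1
  have hK := hG.fit
  have hlo0 := hG.lo 0
  have hloi := hG.lo i
  have hhii := hG.hi hi
  have hloj := hG.lo j
  have hhij := hG.hi hj
  have hj0 : cc n U 0 ≤ cc n U j := cc_le (by omega) (Nat.zero_le j)
  have hjK : cc n U j + 40 * U ≤ cc n U K := cc_lt (by omega) hj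
  obtain ⟨β, hβ, -, ⟨f, f', hfor, ⟨g, hg, hd⟩, ⟨g', hg', hd'⟩⟩⟩ :=
    arms_tr Pool.Agent.W571.DParms.arms hL hm hE hUdef
  refine ⟨β, hβ, ?_⟩
  obtain ⟨e, he⟩ : ∃ e : Edg, e = (v.1, v.2, β) := ⟨_, rfl⟩
  rw [← he] at hβ hfor ⊢
  obtain ⟨G, hGdef⟩ : ∃ G : Set Edg, G = (↑(F.erase e) : Set Edg)ᶜ ∩ ↑(LRE (-(n:ℤ)) n (-(n:ℤ)) n) :=
    ⟨_, rfl⟩
  have hsubG : ∀ {a b c d : ℤ}, -(n:ℤ) < a → b < n → -(n:ℤ) ≤ c → d ≤ n →
      (↑(RE a b c d) \ ↑F : Set Edg) ⊆ G := by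
    intro a b c d k1 k2 k3 k4 x hx
    rw [hGdef]
    refine ⟨fun h => hx.2 ?_, Finset.mem_coe.2 (RE_LRE k1 k2 k3 k4 (Finset.mem_coe.1 hx.1))⟩
    exact Finset.mem_coe.2 (Finset.mem_of_mem_erase (Finset.mem_coe.1 h))
  -- the walls
  obtain ⟨wl, wr⟩ := hW i hi
  unfold wall at wl wr
  have bL1 : ∀ (b : Prop) [Decidable b], -(n:ℤ) ≤ wb n U b ∧ wb n U b ≤ cc n U 0 - 20 * U ∧
      cc n U K - 20 * U ≤ wt n U K b ∧ wt n U K b ≤ n := by
    intro b _
    unfold wb wt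
    split_ifs <;> omega
  have c1 := bL1 (i % 2 = 1)
  have c2 := bL1 (i % 2 = 0)
  obtain ⟨x1, x1', hx1, hx1', r1⟩ := Pool.Agent.W52.DPOne.DTB_of (by omega) (by omega) wl
  obtain ⟨x2, x2', hx2, hx2', r2⟩ := Pool.Agent.W52.DPOne.DTB_of (by omega) (by omega) wr
  have hff : v.1 - 1 ≤ f.1 ∧ f.1 ≤ v.1 ∧ v.1 - 1 ≤ f'.1 ∧ f'.1 ≤ v.1 := by
    have e1 : v.1 - 1 ≤ (dsrc (v.1, v.2, β)).1 ∧ (dsrc (v.1, v.2, β)).1 ≤ v.1 := by
      cases β
      · rw [dsrc_false]; simp only; omega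
      · rw [dsrc_true]; simp only; omega
    rw [he] at hfor
    rcases hfor with ⟨rfl, rfl⟩ | ⟨rfl, rfl⟩ <;> omega
  have sA : ((↑(RE (v.1 - 16 * U) (v.1 + 16 * U) (v.2 - 4 * U) (v.2 + 4 * U)) \ ↑F : Set Edg)) ⊆
      G := hsubG (by omega) (by omega) (by omega) (by omega)
  have rA : ∀ e ∈ ((↑(RE (v.1 - 16 * U) (v.1 + 16 * U) (v.2 - 4 * U) (v.2 + 4 * U)) \ ↑F :
      Set Edg)), dl e ∈ RE (v.1 - 16 * U - 1) (v.1 + 16 * U) (v.2 - 4 * U - 1) (v.2 + 4 * U) :=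
    fun e he => dl_RE (Finset.mem_coe.mp he.1)
  have sL : (↑(LRE (cc n U i - 14 * U) (cc n U i - 14 * U + 4 * U) (wb n U (i % 2 = 1))
      (wt n U K (i % 2 = 1)) \ F) : Set Edg) ⊆ G := by
    refine Set.Subset.trans ?_ (hsubG (a := cc n U i - 14 * U) (b := cc n U i - 14 * U + 4 * U)
      (c := wb n U (i % 2 = 1)) (d := wt n U K (i % 2 = 1)) (by omega) (by omega) (by omega)
      (by omega))
    intro e he
    rw [Finset.mem_coe, Finset.mem_sdiff] at he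
    exact ⟨Finset.mem_coe.mpr (LRE_subset_RE he.1), he.2⟩
  have rL : ∀ e ∈ (↑(LRE (cc n U i - 14 * U) (cc n U i - 14 * U + 4 * U) (wb n U (i % 2 = 1))
      (wt n U K (i % 2 = 1)) \ F) : Set Edg),
      dl e ∈ RE (cc n U i - 14 * U) (cc n U i - 14 * U + 4 * U - 1) (wb n U (i % 2 = 1) - 1)
        (wt n U K (i % 2 = 1)) := by
    intro e he
    rw [Finset.mem_coe, Finset.mem_sdiff] at he
    exact dl_LRE he.1
  have sR : (↑(LRE (cc n U i + 10 * U) (cc n U i + 10 * U + 4 * U) (wb n U (i % 2 = 0))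
      (wt n U K (i % 2 = 0)) \ F) : Set Edg) ⊆ G := by
    refine Set.Subset.trans ?_ (hsubG (a := cc n U i + 10 * U) (b := cc n U i + 10 * U + 4 * U)
      (c := wb n U (i % 2 = 0)) (d := wt n U K (i % 2 = 0)) (by omega) (by omega) (by omega)
      (by omega))
    intro e he
    rw [Finset.mem_coe, Finset.mem_sdiff] at he
    exact ⟨Finset.mem_coe.mpr (LRE_subset_RE he.1), he.2⟩
  have rR : ∀ e ∈ (↑(LRE (cc n U i + 10 * U) (cc n U i + 10 * U + 4 * U) (wb n U (i % 2 = 0))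
      (wt n U K (i % 2 = 0)) \ F) : Set Edg),
      dl e ∈ RE (cc n U i + 10 * U) (cc n U i + 10 * U + 4 * U - 1) (wb n U (i % 2 = 0) - 1)
        (wt n U K (i % 2 = 0)) := by
    intro e he
    rw [Finset.mem_coe, Finset.mem_sdiff] at he
    exact dl_LRE he.1
  have m1 : DReach G g (x1, wb n U (i % 2 = 1) - 1) :=
    dcross_meet (by omega) (by omega) (by omega) (by omega)
      (by omega) (by omega) hd.symm sA rA (by omega) (by omega) r1 sL rL (by simp only; omega)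
      (by simp only; omega)
  have m2 : DReach G f' (x2, wb n U (i % 2 = 0) - 1) :=
    dcross_meet (by omega) (by omega) (by omega) (by omega)
      (by omega) (by omega) hd' sA rA (by omega) (by omega) r2 sR rR (by simp only; omega)
      (by simp only; omega)
  have m3 : DReach G f g := hd.mono sA
  have m4 : DReach G f f' := by
    apply DAdj.reach
    refine ⟨e, ?_, ?_⟩
    · rw [hGdef]
      refine ⟨fun h => Finset.notMem_erase e F (Finset.mem_coe.1 h), ?_⟩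
      rw [Finset.mem_coe, he]
      cases β
      · rw [mem_LRE_false]; omega
      · rw [mem_LRE_true]; omega
    · have e2 : dtgt e = v := by rw [he]; rfl
      rcases hfor with ⟨k1, k2⟩ | ⟨k1, k2⟩
      · exact Or.inl ⟨k1.symm, by rw [e2, k2]⟩
      · exact Or.inr ⟨k2.symm, by rw [e2, k1]⟩
  have m5 : DReach G (x1, wb n U (i % 2 = 1) - 1) (x1', wt n U K (i % 2 = 1)) := r1.mono sL
  have m6 : DReach G (x2, wb n U (i % 2 = 0) - 1) (x2', wt n U K (i % 2 = 0)) := r2.mono sR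
  rintro ⟨y, y', hy, hy', hr⟩
  rcases Nat.mod_two_eq_zero_or_one i with hpar | hpar
  · have e1 : wb n U (i % 2 = 0) = -(n:ℤ) := by unfold wb; rw [if_pos hpar]
    have e2 : wt n U K (i % 2 = 1) = n := by unfold wt; rw [if_neg (by omega)]
    have m7 := m2.symm.trans (m4.symm.trans (m3.trans (m1.trans m5)))
    rw [e1, e2] at m7
    rw [hGdef] at m7
    exact no_both (by omega) hy' (by omega) hr m7
  · have e1 : wb n U (i % 2 = 1) = -(n:ℤ) := by unfold wb; rw [if_pos hpar]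
    have e2 : wt n U K (i % 2 = 0) = n := by unfold wt; rw [if_neg (by omega)]
    have m7 := m1.symm.trans (m3.symm.trans (m4.trans (m2.trans m6)))
    rw [e1, e2] at m7
    rw [hGdef] at m7
    exact no_both (by omega) hy' (by omega) hr m7

end Run7.h537.PT
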