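import Pool.Agent.W801.DPdet
import Pool.Agent.W571.DParms
import Pool.Agent.W598.DPplow
import Pool.Agent.W52.DPOne
import Pool.Agent.W52.DPTwo
import Pool.Agent.W347.DPGood
import Pool.Agent.W347.DPAA
import Pool.Agent.TH992.T.Low1

/-! A snake through all cells of a grid: geometry. -/

set_option autoImplicit false

namespace Run7.h537.PT

open H974 H12S Finset Pool.Agent.W92.DP

theorem good' : St_good :=
  Pool.Agent.W347.DPGood.good (Pool.Agent.W52.DPOne.one Pool.Agent.W598.DP.plow)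
    (Pool.Agent.W52.DPTwo.two Pool.Agent.W347.DPAA.aa)

/-- centres of the lanes and of the rows -/
def cc (n : ℕ) (U : ℤ) (i : ℕ) : ℤ := -(n:ℤ) + 40 * U * (i + 1)

theorem cc_zero (n : ℕ) (U : ℤ) : cc n U 0 = -(n:ℤ) + 40 * U := by
  unfold cc; push_cast; ring

theorem cc_succ (n : ℕ) (U : ℤ) (i : ℕ) : cc n U (i + 1) = cc n U i + 40 * U := by
  unfold cc; push_cast; ring

theorem cc_add (n : ℕ) (U : ℤ) (i d : ℕ) : cc n U (i + d) = cc n U i + 40 * U * d := by
  unfold cc; push_cast; ring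

theorem cc_le {n : ℕ} {U : ℤ} (hU : 0 ≤ U) {i j : ℕ} (h : i ≤ j) : cc n U i ≤ cc n U j := by
  obtain ⟨d, rfl⟩ := Nat.exists_eq_add_of_le h
  rw [cc_add]
  have : 0 ≤ 40 * U * (d:ℤ) := by positivity
  omega

theorem cc_lt {n : ℕ} {U : ℤ} (hU : 0 ≤ U) {i j : ℕ} (h : i < j) :
    cc n U i + 40 * U ≤ cc n U j := by
  rw [← cc_succ]
  exact cc_le hU h

theorem cc_lt2 {n : ℕ} {U : ℤ} (hU : 0 ≤ U) {i j : ℕ} (h : i + 2 ≤ j) :
    cc n U i + 80 * U ≤ cc n U j := by
  have h1 := cc_lt (n := n) hU (show i < i + 1 by omega)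
  have h2 := cc_lt (n := n) hU (show i + 1 < j by omega)
  omega

/-- left end of a connection -/
def lx (n : ℕ) (U : ℤ) (i : ℕ) : ℤ := if i = 0 then -(n:ℤ) else cc n U (i - 1) - 9 * U

/-- right end of a connection -/
def rx (n : ℕ) (U : ℤ) (K i : ℕ) : ℤ := if i = K then (n:ℤ) else cc n U i + 9 * U

/-- level of a connection -/
def ly (n : ℕ) (U : ℤ) (K i : ℕ) : ℤ :=
  if i % 2 = 0 then cc n U 0 - 32 * U else cc n U K - 12 * U

/-- lower end of a wall (`b`: attached to the bottom) -/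
def wb (n : ℕ) (U : ℤ) (b : Prop) [Decidable b] : ℤ := if b then -(n:ℤ) else cc n U 0 - 20 * U

/-- upper end of a wall -/
def wt (n : ℕ) (U : ℤ) (K : ℕ) (b : Prop) [Decidable b] : ℤ :=
  if b then cc n U K - 20 * U else (n:ℤ)

/-- the open crossings between two cells of a lane -/
def gate (n : ℕ) (U : ℤ) (i j : ℕ) (F : Finset Edg) : Prop :=
  LRc (cc n U i - 9 * U) (cc n U i + 9 * U) (cc n U j - 32 * U) (cc n U j - 28 * U) F ∧
  LRc (cc n U i - 9 * U) (cc n U i + 9 * U) (cc n U j - 12 * U) (cc n U j - 8 * U) F ∧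
  TBc (cc n U i - 9 * U) (cc n U i + 9 * U) (cc n U j - 32 * U) (cc n U j - 8 * U) F

/-- the open crossing between two lanes -/
def conn (n : ℕ) (U : ℤ) (K i : ℕ) (F : Finset Edg) : Prop :=
  LRc (lx n U i) (rx n U K i) (ly n U K i) (ly n U K i + 4 * U) F

/-- all open crossings -/
def openEv (n : ℕ) (U : ℤ) (K : ℕ) (F : Finset Edg) : Prop :=
  (∀ i < K, ∀ j ≤ K, gate n U i j F) ∧ (∀ i ≤ K, conn n U K i F)

/-- one side of a lane is not crossed -/
def wall (n : ℕ) (U : ℤ) (K : ℕ) (x : ℤ) (b : Prop) [Decidable b] (F : Finset Edg) : Prop :=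
  ¬ LRc x (x + 4 * U) (wb n U b) (wt n U K b) F

/-- all walls -/
def wallEv (n : ℕ) (U : ℤ) (K : ℕ) (F : Finset Edg) : Prop :=
  ∀ i < K, wall n U K (cc n U i - 14 * U) (i % 2 = 1) F ∧
    wall n U K (cc n U i + 10 * U) (i % 2 = 0) F

/-- edges of the open crossings -/
noncomputable def E1 (n : ℕ) (U : ℤ) (K : ℕ) : Finset Edg :=
  (range K ×ˢ range (K + 1)).biUnion (fun p => RE (cc n U p.1 - 9 * U) (cc n U p.1 + 9 * U)
    (cc n U p.2 - 32 * U) (cc n U p.2 - 8 * U)) ∪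
  (range (K + 1)).biUnion (fun i => RE (lx n U i) (rx n U K i) (ly n U K i) (ly n U K i + 4 * U))

/-- edges of the walls -/
noncomputable def E2 (n : ℕ) (U : ℤ) (K : ℕ) : Finset Edg :=
  (range K).biUnion (fun i =>
    RE (cc n U i - 14 * U) (cc n U i - 14 * U + 4 * U) (wb n U (i % 2 = 1)) (wt n U K (i % 2 = 1)) ∪
    RE (cc n U i + 10 * U) (cc n U i + 10 * U + 4 * U) (wb n U (i % 2 = 0)) (wt n U K (i % 2 = 0)))

theorem RE_pos {a b c d : ℤ} {e : Edg} (h : e ∈ RE a b c d) :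
    (a ≤ e.1 ∧ e.1 ≤ b) ∧ c ≤ e.2.1 ∧ e.2.1 ≤ d := by
  obtain ⟨x, y, _ | _⟩ := e
  · rw [mem_RE_false] at h; simp only; omega
  · rw [mem_RE_true] at h; simp only; omega

theorem gate_sub {n : ℕ} {U : ℤ} {K i j : ℕ} (hi : i < K) (hj : j ≤ K) :
    RE (cc n U i - 9 * U) (cc n U i + 9 * U) (cc n U j - 32 * U) (cc n U j - 8 * U) ⊆
      E1 n U K := by
  intro e he
  unfold E1
  rw [mem_union, mem_biUnion]
  exact Or.inl ⟨(i, j), mem_product.2 ⟨mem_range.2 hi, mem_range.2 (by omega)⟩, he⟩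

theorem conn_sub {n : ℕ} {U : ℤ} {K i : ℕ} (hi : i ≤ K) :
    RE (lx n U i) (rx n U K i) (ly n U K i) (ly n U K i + 4 * U) ⊆ E1 n U K := by
  intro e he
  unfold E1
  rw [mem_union, mem_biUnion, mem_biUnion]
  exact Or.inr ⟨i, mem_range.2 (by omega), he⟩

theorem wl_sub {n : ℕ} {U : ℤ} {K i : ℕ} (hi : i < K) :
    RE (cc n U i - 14 * U) (cc n U i - 14 * U + 4 * U) (wb n U (i % 2 = 1))
      (wt n U K (i % 2 = 1)) ⊆ E2 n U K := by
  intro e he
  unfold E2
  rw [mem_biUnion]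
  exact ⟨i, mem_range.2 hi, mem_union_left _ he⟩

theorem wr_sub {n : ℕ} {U : ℤ} {K i : ℕ} (hi : i < K) :
    RE (cc n U i + 10 * U) (cc n U i + 10 * U + 4 * U) (wb n U (i % 2 = 0))
      (wt n U K (i % 2 = 0)) ⊆ E2 n U K := by
  intro e he
  unfold E2
  rw [mem_biUnion]
  exact ⟨i, mem_range.2 hi, mem_union_right _ he⟩

theorem E1_pos {n : ℕ} {U : ℤ} {K : ℕ} {e : Edg} (h : e ∈ E1 n U K) :
    (∃ i < K, ∃ j ≤ K, (cc n U i - 9 * U ≤ e.1 ∧ e.1 ≤ cc n U i + 9 * U) ∧
      cc n U j - 32 * U ≤ e.2.1 ∧ e.2.1 ≤ cc n U j - 8 * U) ∨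
    (∃ i ≤ K, (lx n U i ≤ e.1 ∧ e.1 ≤ rx n U K i) ∧
      ly n U K i ≤ e.2.1 ∧ e.2.1 ≤ ly n U K i + 4 * U) := by
  unfold E1 at h
  rw [mem_union, mem_biUnion, mem_biUnion] at h
  rcases h with ⟨⟨i, j⟩, h1, h2⟩ | ⟨i, h1, h2⟩
  · rw [mem_product, mem_range, mem_range] at h1
    exact Or.inl ⟨i, h1.1, j, by simp only at h1; omega, RE_pos h2⟩
  · rw [mem_range] at h1
    exact Or.inr ⟨i, by omega, RE_pos h2⟩

theorem E2_pos {n : ℕ} {U : ℤ} {K : ℕ} {e : Edg} (h : e ∈ E2 n U K) :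
    ∃ i < K, ((cc n U i - 14 * U ≤ e.1 ∧ e.1 ≤ cc n U i - 10 * U) ∧
        wb n U (i % 2 = 1) ≤ e.2.1 ∧ e.2.1 ≤ wt n U K (i % 2 = 1)) ∨
      ((cc n U i + 10 * U ≤ e.1 ∧ e.1 ≤ cc n U i + 14 * U) ∧
        wb n U (i % 2 = 0) ≤ e.2.1 ∧ e.2.1 ≤ wt n U K (i % 2 = 0)) := by
  unfold E2 at h
  rw [mem_biUnion] at h
  obtain ⟨i, h1, h2⟩ := h
  rw [mem_range] at h1
  refine ⟨i, h1, ?_⟩
  rw [mem_union] at h2
  rcases h2 with h2 | h2
  · left
    have := RE_pos h2
    omega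
  · right
    have := RE_pos h2
    omega

/-- The geometric assumptions. -/
structure Gm (n : ℕ) (U : ℤ) (K : ℕ) : Prop where
  U1 : 128 ≤ U
  K1 : K % 2 = 1
  fit : cc n U K ≤ n

theorem Gm.lo {n : ℕ} {U : ℤ} {K : ℕ} (h : Gm n U K) (i : ℕ) : -(n:ℤ) + 40 * U ≤ cc n U i := by
  have := cc_le (n := n) (U := U) (by have := h.U1; omega) (Nat.zero_le i)
  rw [cc_zero] at this
  exact this

theorem Gm.hi {n : ℕ} {U : ℤ} {K : ℕ} (h : Gm n U K) {i : ℕ} (hi : i < K) :
    cc n U i + 40 * U ≤ n := by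
  have := cc_lt (n := n) (U := U) (by have := h.U1; omega) hi
  have := h.fit
  omega

theorem E1_sub {n : ℕ} {U : ℤ} {K : ℕ} (h : Gm n U K) : E1 n U K ⊆ boxE n := by
  have hU := h.U1
  have hK := h.fit
  unfold E1 boxE
  refine union_subset ?_ ?_
  · rw [biUnion_subset]
    rintro ⟨i, j⟩ hp
    rw [mem_product, mem_range, mem_range] at hp
    simp only at hp
    have a1 := h.lo i
    have a2 := h.hi hp.1
    have a3 := h.lo j
    have a4 := cc_le (n := n) (U := U) (by omega) (show j ≤ K by omega)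
    exact RE_subset (by simp only; omega) (by simp only; omega) (by simp only; omega)
      (by simp only; omega)
  · rw [biUnion_subset]
    intro i hp
    rw [mem_range] at hp
    have a0 := h.lo 0
    have a1 := h.lo (i - 1)
    have a2 := h.lo K
    have a3 : cc n U 0 ≤ cc n U K := cc_le (by omega) (Nat.zero_le K)
    refine RE_subset ?_ ?_ ?_ ?_
    · unfold lx; split_ifs <;> omega
    · unfold rx; split_ifs
      · omega
      · have a4 := h.hi (show i < K by omega)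
        omega
    · unfold ly; split_ifs <;> omega
    · unfold ly; split_ifs <;> omega

theorem E2_sub {n : ℕ} {U : ℤ} {K : ℕ} (h : Gm n U K) : E2 n U K ⊆ boxE n := by
  have hU := h.U1
  have hK := h.fit
  have a0 := h.lo 0
  have a3 : cc n U 0 ≤ cc n U K := cc_le (by omega) (Nat.zero_le K)
  have b1 : ∀ (b : Prop) [Decidable b], -(n:ℤ) ≤ wb n U b := by
    intro b _
    unfold wb; split_ifs <;> omega
  have b2 : ∀ (b : Prop) [Decidable b], wt n U K b ≤ n := by
    intro b _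
    unfold wt; split_ifs <;> omega
  unfold E2 boxE
  rw [biUnion_subset]
  intro i hi
  rw [mem_range] at hi
  have a1 := h.lo i
  have a2 := h.hi hi
  exact union_subset (RE_subset (by omega) (by omega) (b1 _) (b2 _))
    (RE_subset (by omega) (by omega) (b1 _) (b2 _))

theorem E12_disj {n : ℕ} {U : ℤ} {K : ℕ} (h : Gm n U K) : Disjoint (E1 n U K) (E2 n U K) := by
  have hU := h.U1
  have hU0 : 0 ≤ U := by omega
  have hK := h.fit
  have hK1 := h.K1
  rw [disjoint_left]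
  intro e h1 h2
  obtain ⟨i', hi', h2⟩ := E2_pos h2
  have c0 := cc_le (n := n) hU0 (Nat.zero_le i')
  have c1 := cc_lt (n := n) hU0 hi'
  rcases E1_pos h1 with ⟨i, hi, j, hj, h3, -⟩ | ⟨i, hi, h3, h4⟩
  · rcases lt_trichotomy i i' with h5 | h5 | h5
    · have := cc_lt (n := n) hU0 h5
      omega
    · subst h5
      omega
    · have := cc_lt (n := n) hU0 h5
      omega
  · -- a connection and a wall
    have lev : (i % 2 = 0 ∧ e.2.1 ≤ cc n U 0 - 28 * U) ∨
        (i % 2 = 1 ∧ cc n U K - 12 * U ≤ e.2.1) := by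
      unfold ly at h4
      split_ifs at h4 with h5
      · left; omega
      · right; omega
    have left : (cc n U i' - 14 * U ≤ e.1 ∧ e.1 ≤ cc n U i' - 10 * U) → i' % 2 = (i + 1) % 2 →
        False := by
      intro h5 h6
      rcases lt_or_ge i' i with h7 | h7
      · -- i' ≤ i - 1
        have h8 : cc n U i' ≤ cc n U (i - 1) := cc_le hU0 (by omega)
        unfold lx at h3
        rw [if_neg (by omega)] at h3
        omega
      · have h8 : i < i' := by omega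
        have h9 := cc_lt (n := n) hU0 h8
        unfold rx at h3
        rw [if_neg (by omega)] at h3
        omega
    have right : (cc n U i' + 10 * U ≤ e.1 ∧ e.1 ≤ cc n U i' + 14 * U) → i' % 2 = i % 2 →
        False := by
      intro h5 h6
      rcases lt_or_ge i' i with h7 | h7
      · -- i' ≤ i - 2
        have h8 : cc n U i' + 40 * U ≤ cc n U (i - 1) := cc_lt hU0 (by omega)
        unfold lx at h3
        rw [if_neg (by omega)] at h3
        omega
      · have h8 : cc n U i ≤ cc n U i' := cc_le hU0 h7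
        unfold rx at h3
        rw [if_neg (by omega)] at h3
        omega
    unfold wb wt at h2
    rcases h2 with ⟨h5, h6⟩ | ⟨h5, h6⟩
    · apply left h5
      split_ifs at h6 with h7 <;> omega
    · apply right h5
      split_ifs at h6 with h7 <;> omega

theorem open_local {n : ℕ} {U : ℤ} {K : ℕ} (h : Gm n U K) (F : Finset Edg) :
    openEv n U K F ↔ openEv n U K (F ∩ E1 n U K) := by
  have hU := h.U1
  unfold openEv gate conn
  have key : ∀ i < K, ∀ j ≤ K,
      (LRE (cc n U i - 9 * U) (cc n U i + 9 * U) (cc n U j - 32 * U) (cc n U j - 28 * U) ⊆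
        E1 n U K) ∧
      (LRE (cc n U i - 9 * U) (cc n U i + 9 * U) (cc n U j - 12 * U) (cc n U j - 8 * U) ⊆
        E1 n U K) ∧
      (TBE (cc n U i - 9 * U) (cc n U i + 9 * U) (cc n U j - 32 * U) (cc n U j - 8 * U) ⊆
        E1 n U K) := by
    intro i hi j hj
    refine ⟨?_, ?_, ?_⟩
    · exact (LRE_subset_RE.trans (RE_subset le_rfl le_rfl le_rfl (by omega))).trans
        (gate_sub hi hj)
    · exact (LRE_subset_RE.trans (RE_subset le_rfl le_rfl (by omega) le_rfl)).trans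
        (gate_sub hi hj)
    · exact TBE_subset_RE.trans (gate_sub hi hj)
  constructor
  · rintro ⟨h1, h2⟩
    refine ⟨fun i hi j hj => ?_, fun i hi => ?_⟩
    · obtain ⟨k1, k2, k3⟩ := key i hi j hj
      obtain ⟨g1, g2, g3⟩ := h1 i hi j hj
      exact ⟨(LRc_local k1).1 g1, (LRc_local k2).1 g2, (TBc_local k3).1 g3⟩
    · exact (LRc_local (LRE_subset_RE.trans (conn_sub hi))).1 (h2 i hi)
  · rintro ⟨h1, h2⟩
    refine ⟨fun i hi j hj => ?_, fun i hi => ?_⟩
    · obtain ⟨k1, k2, k3⟩ := key i hi j hj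
      obtain ⟨g1, g2, g3⟩ := h1 i hi j hj
      exact ⟨(LRc_local k1).2 g1, (LRc_local k2).2 g2, (TBc_local k3).2 g3⟩
    · exact (LRc_local (LRE_subset_RE.trans (conn_sub hi))).2 (h2 i hi)

theorem open_mono {n : ℕ} {U : ℤ} {K : ℕ} {F G : Finset Edg} (h : F ⊆ G)
    (hF : openEv n U K F) : openEv n U K G :=
  ⟨fun i hi j hj => ⟨(hF.1 i hi j hj).1.mono h, (hF.1 i hi j hj).2.1.mono h,
    (hF.1 i hi j hj).2.2.mono h⟩, fun i hi => (hF.2 i hi).mono h⟩

theorem wall_local {n : ℕ} {U : ℤ} {K : ℕ} (F : Finset Edg) :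
    wallEv n U K F ↔ wallEv n U K (F ∩ E2 n U K) := by
  unfold wallEv wall
  refine forall_congr' fun i => forall_congr' fun hi => ?_
  exact and_congr (not_congr (LRc_local (LRE_subset_RE.trans (wl_sub hi))))
    (not_congr (LRc_local (LRE_subset_RE.trans (wr_sub hi))))

theorem wall_mono {n : ℕ} {U : ℤ} {K : ℕ} {F G : Finset Edg} (h : F ⊆ G)
    (hG : wallEv n U K G) : wallEv n U K F :=
  fun i hi => ⟨fun h' => (hG i hi).1 (h'.mono h), fun h' => (hG i hi).2 (h'.mono h)⟩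

end Run7.h537.PT
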