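import Pool.Agent.Y554.NE.Top
import Pool.Agent.Y554.NE.Res
import Pool.Agent.Run7.h537.PT.An

/-! Exponential moments of the number of pivotal edges. -/

set_option autoImplicit false

namespace Run7.h537.PT

open H974 H12S H985T H389NS Finset Pool.Agent.Y554.DP Pool.Agent.Y554.SN Pool.Agent.Y554.NE

theorem spoly : S_POLY :=
  poly Pool.Agent.Y180.NE.q1p key tree Pool.Agent.Y239.NE.Dec.dec Pool.Agent.Y67.NE.exps
    Pool.Agent.Y433.NE.suma Pool.Agent.Y434.NE.sumb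

/-- the generating function -/
noncomputable def ZZ (n : ℕ) (Y : ℝ) : ℝ :=
  ∑ S ∈ (boxE n).powerset, Y ^ S.card * PQ (1 / 2) (boxE n) (Qe n S)

theorem box_card {n : ℕ} (hn : 1 ≤ n) : ((boxE n).card : ℝ) ≤ 18 * (n:ℝ) ^ 2 := by
  have h1 : (boxE n).card ≤ (2 * n + 1) * ((2 * n + 1) * 2) := by
    unfold boxE RE
    refine (Finset.card_filter_le _ _).trans ?_
    rw [Finset.card_product, Finset.card_product, Int.card_Icc, Finset.card_univ, Fintype.card_bool]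
    have : ((n:ℤ) + 1 - -(n:ℤ)).toNat = 2 * n + 1 := by omega
    rw [this]
  have h2 : ((boxE n).card : ℝ) ≤ ((2 * n + 1) * ((2 * n + 1) * 2) : ℕ) := by exact_mod_cast h1
  have hn1 : (1:ℝ) ≤ n := by exact_mod_cast hn
  push_cast at h2
  nlinarith

theorem ok2 : Ok (fun _ : Edg => (1/2:ℝ)) := fun _ => by constructor <;> norm_num

theorem ZZ_triv {n : ℕ} (hn : 1 ≤ n) {Y : ℝ} (hY : 0 ≤ Y) :
    ZZ n Y ≤ Real.exp (18 * (Y * (n:ℝ) ^ 2)) := by
  unfold ZZ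
  have h1 : ∑ S ∈ (boxE n).powerset, Y ^ S.card * PQ (1 / 2) (boxE n) (Qe n S) ≤
      ∑ S ∈ (boxE n).powerset, Y ^ S.card * 1 ^ ((boxE n).card - S.card) := by
    apply Finset.sum_le_sum
    intro S _
    rw [one_pow]
    exact mul_le_mul_of_nonneg_left (Pr_le_one ok2 _ _) (by positivity)
  rw [Finset.sum_pow_mul_eq_add_pow] at h1
  refine h1.trans ?_
  have h2 : Y + 1 ≤ Real.exp Y := Real.add_one_le_exp Y
  calc (Y + 1) ^ (boxE n).card ≤ (Real.exp Y) ^ (boxE n).card :=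
        pow_le_pow_left₀ (by linarith) h2 _
    _ = Real.exp ((boxE n).card * Y) := by rw [← Real.exp_nat_mul]
    _ ≤ _ := by
        apply Real.exp_le_exp.2
        have := mul_le_mul_of_nonneg_right (box_card hn) hY
        linarith

theorem ZZ_bound : ∃ C : ℝ, 1 ≤ C ∧ ∀ n : ℕ, 1 ≤ n → ∀ Y : ℝ, 0 ≤ Y →
    ZZ n Y ≤ Real.exp (C * (Y ^ (8/3:ℝ) * (n:ℝ)^2 + Y * (n:ℝ)^(3/4:ℝ))) := by
  obtain ⟨C0, hC0, h⟩ := spoly
  have hC00 : 0 < C0 := by linarith
  refine ⟨18 * C0 ^ (3:ℝ), ?_, ?_⟩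
  · have := Real.one_le_rpow hC0 (by norm_num : (0:ℝ) ≤ 3)
    linarith
  intro n hn Y hY
  have hn1 : (1:ℝ) ≤ n := by exact_mod_cast hn
  have hn0 : (0:ℝ) < n := by linarith
  have hs : 0 < (n:ℝ)^(3/4:ℝ) := by positivity
  have hpow : ∀ a : ℝ, a ≤ 3 → C0 ^ a ≤ C0 ^ (3:ℝ) := fun a ha =>
    Real.rpow_le_rpow_of_exponent_le hC0 ha
  have hC3 : 0 < C0 ^ (3:ℝ) := by positivity
  have hA : 0 ≤ Y ^ (8/3:ℝ) * (n:ℝ)^2 := by positivity
  have hB : 0 ≤ Y * (n:ℝ)^(3/4:ℝ) := by positivity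
  rcases le_or_gt (C0 * Y * (n:ℝ)^(3/4:ℝ)) 1 with h1 | h1
  · have h2 := h n n Y hn le_rfl hY h1
    refine h2.trans (Real.exp_le_exp.2 ?_)
    have e1 : (n:ℝ)^2 * (n:ℝ)^(-(5/4):ℝ) = (n:ℝ)^(3/4:ℝ) := by
      rw [← Real.rpow_natCast, ← Real.rpow_add hn0]
      norm_num
    rw [e1]
    have e2 := hpow 1 (by norm_num)
    rw [Real.rpow_one] at e2
    have e3 := mul_le_mul_of_nonneg_right e2 hB
    have e4 := mul_nonneg hC3.le hB
    have e5 := mul_nonneg hC3.le hA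
    linarith
  have hY0 : 0 < Y := by
    rcases hY.lt_or_eq with h2 | h2
    · exact h2
    · rw [← h2] at h1; norm_num at h1
  rcases lt_or_ge 1 (C0 * Y) with h2 | h2
  · refine (ZZ_triv hn hY).trans (Real.exp_le_exp.2 ?_)
    have e1 : Y ≤ C0 ^ (3:ℝ) * Y ^ (8/3:ℝ) := by
      have e2 : 1 ≤ (C0 * Y) ^ (5/3:ℝ) := Real.one_le_rpow h2.le (by norm_num)
      have e3 : (C0 * Y) ^ (5/3:ℝ) * Y = C0 ^ (5/3:ℝ) * Y ^ (8/3:ℝ) := by
        rw [Real.mul_rpow hC00.le hY, mul_assoc]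
        nth_rewrite 2 [← Real.rpow_one Y]
        rw [← Real.rpow_add hY0]
        norm_num
      have e4 := mul_le_mul_of_nonneg_right e2 hY
      rw [e3, one_mul] at e4
      exact e4.trans (mul_le_mul_of_nonneg_right (hpow _ (by norm_num)) (by positivity))
    have e5 := mul_le_mul_of_nonneg_right e1 (by positivity : (0:ℝ) ≤ (n:ℝ)^2)
    have e6 := mul_nonneg hC3.le hB
    nlinarith
  · obtain ⟨μ, hμ⟩ : ∃ μ : ℝ, μ = (C0 * Y) ^ (-(4/3):ℝ) := ⟨_, rfl⟩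
    have hCY : 0 < C0 * Y := by positivity
    have hμ1 : 1 ≤ μ := by
      rw [hμ]
      exact Real.one_le_rpow_of_pos_of_le_one_of_nonpos hCY h2 (by norm_num)
    have hμ0 : 0 < μ := by linarith
    have hμn : μ ≤ n := by
      have e1 : ((n:ℝ)^(3/4:ℝ))⁻¹ ≤ C0 * Y := by
        rw [inv_le_iff_one_le_mul₀ hs]
        exact h1.le
      have e2 := Real.rpow_le_rpow_of_nonpos (by positivity) e1 (by norm_num : -(4/3:ℝ) ≤ 0)
      rw [hμ]
      refine e2.trans (le_of_eq ?_)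
      rw [← Real.rpow_neg hn0.le, ← Real.rpow_mul hn0.le]
      norm_num
    obtain ⟨m, hm⟩ : ∃ m : ℕ, m = ⌊μ⌋₊ := ⟨_, rfl⟩
    have hmμ : (m:ℝ) ≤ μ := by rw [hm]; exact Nat.floor_le hμ0.le
    have hm1 : 1 ≤ m := by rw [hm]; exact Nat.le_floor (by simpa using hμ1)
    have hmn : m ≤ n := by
      have : (m:ℝ) ≤ n := hmμ.trans hμn
      exact_mod_cast this
    have hmr : (1:ℝ) ≤ m := by exact_mod_cast hm1
    have hμm : μ ≤ 2 * m := by
      have : μ < m + 1 := by rw [hm]; exact Nat.lt_floor_add_one μ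
      linarith
    have e1 : C0 * Y * (m:ℝ)^(3/4:ℝ) ≤ 1 := by
      have e2 : (m:ℝ)^(3/4:ℝ) ≤ μ^(3/4:ℝ) := Real.rpow_le_rpow (by positivity) hmμ (by norm_num)
      have e3 : C0 * Y * μ^(3/4:ℝ) = 1 := by
        rw [hμ, ← Real.rpow_mul hCY.le]
        nth_rewrite 1 [← Real.rpow_one (C0 * Y)]
        rw [← Real.rpow_add hCY]
        norm_num
      calc C0 * Y * (m:ℝ)^(3/4:ℝ) ≤ C0 * Y * μ^(3/4:ℝ) := mul_le_mul_of_nonneg_left e2 hCY.le
        _ = 1 := e3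
    refine (h n m Y hm1 hmn hY e1).trans (Real.exp_le_exp.2 ?_)
    have e4 : (m:ℝ)^(-(5/4):ℝ) ≤ 4 * (C0 * Y)^(5/3:ℝ) := by
      have e5 : μ / 2 ≤ m := by linarith
      have e6 := Real.rpow_le_rpow_of_nonpos (by positivity) e5 (by norm_num : -(5/4:ℝ) ≤ 0)
      refine e6.trans ?_
      rw [Real.div_rpow hμ0.le (by norm_num)]
      have e7 : μ ^ (-(5/4):ℝ) = (C0 * Y)^(5/3:ℝ) := by
        rw [hμ, ← Real.rpow_mul hCY.le]
        norm_num
      rw [e7, div_eq_mul_inv, mul_comm, ← Real.rpow_neg (by norm_num)]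
      apply mul_le_mul_of_nonneg_right _ (by positivity)
      calc (2:ℝ) ^ (-(-(5/4)):ℝ) ≤ (2:ℝ) ^ (2:ℝ) :=
            Real.rpow_le_rpow_of_exponent_le (by norm_num) (by norm_num)
        _ = 4 := by norm_num
    have e8 : C0 * Y * (C0 * Y)^(5/3:ℝ) = C0 ^ (8/3:ℝ) * Y ^ (8/3:ℝ) := by
      rw [← Real.mul_rpow hC00.le hY]
      nth_rewrite 1 [← Real.rpow_one (C0 * Y)]
      rw [← Real.rpow_add hCY]
      norm_num
    calc C0 * Y * ((n:ℝ)^2 * (m:ℝ)^(-(5/4):ℝ)) ≤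
          C0 * Y * ((n:ℝ)^2 * (4 * (C0 * Y)^(5/3:ℝ))) := by
          apply mul_le_mul_of_nonneg_left _ hCY.le
          exact mul_le_mul_of_nonneg_left e4 (by positivity)
      _ = 4 * ((C0 * Y * (C0 * Y)^(5/3:ℝ)) * (n:ℝ)^2) := by ring
      _ = 4 * (C0 ^ (8/3:ℝ) * (Y ^ (8/3:ℝ) * (n:ℝ)^2)) := by rw [e8]; ring
      _ ≤ 4 * (C0 ^ (3:ℝ) * (Y ^ (8/3:ℝ) * (n:ℝ)^2)) := by
          apply mul_le_mul_of_nonneg_left _ (by norm_num)
          exact mul_le_mul_of_nonneg_right (hpow _ (by norm_num)) hA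
      _ ≤ _ := by
          have e9 := mul_nonneg hC3.le hB
          have e10 := mul_nonneg hC3.le hA
          linarith

open Classical in
/-- the pivotal edges -/
noncomputable def Piv (n : ℕ) (F : Finset Edg) : Finset Edg :=
  (boxE n).filter (fun e => Pv (Lf n) (Rt n) e (↑F : Set Edg))

theorem mem_Piv {n : ℕ} {F : Finset Edg} {e : Edg} :
    e ∈ Piv n F ↔ e ∈ boxE n ∧ Pv (Lf n) (Rt n) e (↑F : Set Edg) := by
  classical
  unfold Piv
  rw [mem_filter]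

theorem Piv_sub (n : ℕ) (F : Finset Edg) : Piv n F ⊆ boxE n := fun _ h => (mem_Piv.1 h).1

theorem Qe_of_sub {n : ℕ} {S F : Finset Edg} (h : S ⊆ Piv n F) : Qe n S F := by
  intro e he
  refine ⟨F ∩ S, Finset.inter_subset_right, ?_⟩
  have h1 : F \ S ∪ F ∩ S = F := Finset.sdiff_union_inter F S
  rw [h1]
  exact (mem_Piv.1 (h he)).2

/-- weights of the uniform law -/
noncomputable def wu (n : ℕ) (_ : Finset Edg) : ℝ := (1/2:ℝ) ^ (boxE n).card

theorem Ex_eq (n : ℕ) (f : Finset Edg → ℝ) :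
    Ex (fun _ : Edg => (1/2:ℝ)) (boxE n) f = ∑ F ∈ (boxE n).powerset, wu n F * f F := by
  rw [H973.Ex_half, Finset.mul_sum]
  rfl

theorem piv_expM : ∃ C : ℝ, 1 ≤ C ∧ ∀ n : ℕ, 1 ≤ n →
    ExpM C n (boxE n).powerset (wu n) (fun F => (Piv n F).card) := by
  obtain ⟨C, hC, h⟩ := ZZ_bound
  refine ⟨C, hC, fun n hn Y hY => le_trans ?_ (h n hn Y hY)⟩
  have h1 : ∀ F ∈ (boxE n).powerset, wu n F * (1 + Y) ^ (Piv n F).card ≤
      ∑ S ∈ (boxE n).powerset, Y ^ S.card * (wu n F * ind (Qe n S F)) := by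
    intro F _
    have e1 : (1 + Y) ^ (Piv n F).card = ∑ S ∈ (Piv n F).powerset, Y ^ S.card := by
      have := Finset.sum_pow_mul_eq_add_pow Y 1 (Piv n F)
      rw [add_comm, ← this]
      apply Finset.sum_congr rfl
      intro S _
      rw [one_pow, mul_one]
    rw [e1, Finset.mul_sum]
    have hw : 0 ≤ wu n F := by unfold wu; positivity
    refine le_trans (Finset.sum_le_sum (f := fun S => wu n F * Y ^ S.card)
      (g := fun S : Finset Edg => Y ^ S.card * (wu n F * ind (Qe n S F))) ?_) ?_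
    · intro S hS
      rw [mem_powerset] at hS
      rw [ind_of (Qe_of_sub hS), mul_one, mul_comm]
    · apply Finset.sum_le_sum_of_subset_of_nonneg
        (Finset.powerset_mono.2 (Piv_sub n F))
      intro S _ _
      have := ind_nonneg (Qe n S F)
      positivity
  refine (Finset.sum_le_sum h1).trans ?_
  rw [Finset.sum_comm]
  unfold ZZ
  apply Finset.sum_le_sum
  intro S _
  rw [← Finset.mul_sum]
  apply mul_le_mul_of_nonneg_left _ (by positivity)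
  unfold PQ Pr
  rw [Ex_eq]

end Run7.h537.PT
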