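import Pool.Agent.Run7.h537.PT.Det
import Pool.Agent.Run7.h537.PT.Up

/-! Lower bound for the probability of many open pivotal edges. -/

set_option autoImplicit false

namespace Run7.h537.PT

open H974 H12S Finset Pool.Agent.W92.DP
open Pool.Agent.Y554.SN (Lf Rt)

/-- the open pivotal edges -/
noncomputable def Pio (n : ℕ) (F : Finset Edg) : Finset Edg := Piv n F ∩ F

theorem full_of_CA {c0 : ℝ} {L m n K : ℕ} (hc0 : 0 < c0) (hm : 1 ≤ m) {F : Finset Edg}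
    (h : CA c0 L m n K F) : full L m n K F := by
  classical
  intro i hi j hj
  have h1 := h (i, j) (mem_product.2 ⟨mem_range.2 hi, mem_range.2 hj⟩)
  unfold CE at h1
  have hm0 : (0:ℝ) < m := by exact_mod_cast hm
  have h2 : 0 < c0 * (m:ℝ) ^ (3/4:ℝ) := by positivity
  have h3 : (0:ℝ) < (Nc L m n (i, j) F : ℝ) := h2.trans_le h1
  have h4 : 0 < Nc L m n (i, j) F := by exact_mod_cast h3
  unfold Nc at h4
  rw [card_pos] at h4
  obtain ⟨v, hv⟩ := h4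
  rw [mem_filter] at hv
  have h5 := tv_core (n := n) (q := (i, j)) hv.1
  exact ⟨_, h5.1, h5.2, hv.2⟩

theorem mem_Pio {L m n K : ℕ} (hL : 2 ≤ L) (hm : 64 ≤ m) (hG : Gm n (L * m : ℕ) K)
    {F : Finset Edg} (hF : F ⊆ boxE n) (hO : openEv n (L * m : ℕ) K F)
    (hW : wallEv n (L * m : ℕ) K F) (hfull : full L m n K F) {i j : ℕ}
    (hi : i < K) (hj : j < K) {v : Vtx} (h1 : cc n (L * m : ℕ) i - (L * m : ℕ) ≤ v.1)
    (h2 : v.1 ≤ cc n (L * m : ℕ) i + (L * m : ℕ)) (h3 : cc n (L * m : ℕ) j - (L * m : ℕ) ≤ v.2)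
    (h4 : v.2 ≤ cc n (L * m : ℕ) j + (L * m : ℕ)) (hE : E4 L m v F) :
    ∃ β : Bool, ((v.1, v.2, β) : Edg) ∈ Pio n F := by
  obtain ⟨β, hβ, hbl⟩ := blocked hL hm hG hW hi hj h1 h2 h3 h4 hE
  refine ⟨β, ?_⟩
  unfold Pio
  rw [mem_inter, mem_Piv]
  refine ⟨⟨hF hβ, ?_, ?_⟩, hβ⟩
  · obtain ⟨y, y', hy, hy', hr⟩ := crossed hL hm hG hO hfull
    refine ⟨(-(n:ℤ), y), ⟨rfl, hy.1, hy.2⟩, ((n:ℤ), y'), ⟨rfl, hy'.1, hy'.2⟩, hr.mono ?_⟩
    exact Set.subset_insert _ _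
  · intro hc
    apply hbl
    have hn : -(n:ℤ) < n := by
      have := hG.lo K
      have := hG.fit
      have := hG.U1
      omega
    rw [← TH291.NW.cn_lr hn ((Finset.erase_subset _ _).trans hF)]
    rw [Finset.coe_erase]
    exact hc

theorem count {c0 : ℝ} {L m n K : ℕ} (hc0 : 0 < c0) (hL : 2 ≤ L) (hm : 64 ≤ m)
    (hG : Gm n (L * m : ℕ) K) {F : Finset Edg} (hF : F ⊆ boxE n)
    (hC : CA c0 L m n K F) (hO : openEv n (L * m : ℕ) K F) (hW : wallEv n (L * m : ℕ) K F) :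
    (K:ℝ) * K * (c0 * (m:ℝ) ^ (3/4:ℝ)) ≤ ((Pio n F).card : ℝ) := by
  classical
  have hfull := full_of_CA hc0 (by omega) hC
  have hU := hG.U1
  obtain ⟨A, hA⟩ : ∃ A : ℕ × ℕ → Finset Vtx, A = fun q => ((core4 (L * m : ℕ)).filter
    (fun v => E4 L m (tv (ox n (L * m : ℕ) q.1) (oy n (L * m : ℕ) q.2) v) F)).image
      (tv (ox n (L * m : ℕ) q.1) (oy n (L * m : ℕ) q.2)) := ⟨_, rfl⟩
  have hAc : ∀ q, (A q).card = Nc L m n q F := by
    intro q
    rw [hA]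
    simp only
    rw [card_image_of_injective]
    · unfold Nc
      rfl
    · rintro ⟨a, b⟩ ⟨c, d⟩ h
      unfold tv at h
      simp only [Prod.mk.injEq] at h
      exact Prod.ext (by omega) (by omega)
  have hAm : ∀ q, ∀ v ∈ A q, ((cc n (L * m : ℕ) q.1 - (L * m : ℕ) ≤ v.1 ∧
      v.1 ≤ cc n (L * m : ℕ) q.1 + (L * m : ℕ)) ∧ (cc n (L * m : ℕ) q.2 - (L * m : ℕ) ≤ v.2 ∧
      v.2 ≤ cc n (L * m : ℕ) q.2 + (L * m : ℕ))) ∧ E4 L m v F := by
    intro q v hv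
    rw [hA] at hv
    simp only at hv
    rw [mem_image] at hv
    obtain ⟨w, hw, rfl⟩ := hv
    rw [mem_filter] at hw
    exact ⟨tv_core hw.1, hw.2⟩
  have hdisj : ∀ q ∈ range K ×ˢ range K, ∀ q' ∈ range K ×ˢ range K, q ≠ q' →
      Disjoint (A q) (A q') := by
    intro q _ q' _ hne
    rw [disjoint_left]
    intro v h1 h2
    have p1 := (hAm q v h1).1
    have p2 := (hAm q' v h2).1
    have hne' : q.1 ≠ q'.1 ∨ q.2 ≠ q'.2 := by
      by_contra hc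
      push Not at hc
      exact hne (Prod.ext hc.1 hc.2)
    rcases hne' with h3 | h3
    · rcases lt_or_gt_of_ne h3 with h4 | h4
      · have := cc_lt (n := n) (U := (L * m : ℕ)) (by omega) h4
        omega
      · have := cc_lt (n := n) (U := (L * m : ℕ)) (by omega) h4
        omega
    · rcases lt_or_gt_of_ne h3 with h4 | h4
      · have := cc_lt (n := n) (U := (L * m : ℕ)) (by omega) h4
        omega
      · have := cc_lt (n := n) (U := (L * m : ℕ)) (by omega) h4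
        omega
  have h1 : ∑ q ∈ range K ×ˢ range K, Nc L m n q F ≤ (Pio n F).card := by
    calc ∑ q ∈ range K ×ˢ range K, Nc L m n q F = ∑ q ∈ range K ×ˢ range K, (A q).card :=
          Finset.sum_congr rfl (fun q _ => (hAc q).symm)
      _ = ((range K ×ˢ range K).biUnion A).card := (card_biUnion hdisj).symm
      _ ≤ ((Pio n F).image (fun e : Edg => ((e.1, e.2.1) : Vtx))).card := by
          apply card_le_card
          intro v hv
          rw [mem_biUnion] at hv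
          obtain ⟨q, hq, hv⟩ := hv
          rw [mem_product, mem_range, mem_range] at hq
          obtain ⟨⟨⟨k1, k2⟩, k3, k4⟩, k5⟩ := hAm q v hv
          obtain ⟨β, hβ⟩ := mem_Pio hL hm hG hF hO hW hfull hq.1 hq.2 k1 k2 k3 k4 k5
          rw [mem_image]
          exact ⟨_, hβ, rfl⟩
      _ ≤ (Pio n F).card := card_image_le
  have h2 : ((∑ q ∈ range K ×ˢ range K, Nc L m n q F : ℕ) : ℝ) ≤ ((Pio n F).card : ℝ) := by
    exact_mod_cast h1
  refine le_trans ?_ h2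
  push_cast
  have h3 : ∑ q ∈ range K ×ˢ range K, (c0 * (m:ℝ) ^ (3/4:ℝ)) ≤
      ∑ q ∈ range K ×ˢ range K, (Nc L m n q F : ℝ) :=
    Finset.sum_le_sum (fun q hq => hC q hq)
  rw [Finset.sum_const, card_product, card_range, nsmul_eq_mul] at h3
  push_cast at h3
  exact h3

/-- the snake at a given number of lanes -/
theorem low_K : ∃ (A : ℕ) (c1 C1 : ℝ), 1 ≤ A ∧ 0 < c1 ∧ 0 < C1 ∧ ∀ n K : ℕ, K % 2 = 1 →
    A * (K + 1) ≤ n → Real.exp (-(C1 * ((K:ℝ) + 1) ^ 2)) ≤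
      Pr (fun _ : Edg => (1/2:ℝ)) (boxE n)
        (fun F => c1 * (K:ℝ) ^ (5/4:ℝ) * (n:ℝ) ^ (3/4:ℝ) ≤ ((Pio n F).card : ℝ)) := by
  obtain ⟨L, M, c0, E0, p, hL, hM, hc0, hE0, hp, hp1, hg⟩ := good' (1/2) (by norm_num) (by norm_num)
  have hq := TH992.T.q0_pos
  have hb : 0 < p * TH992.T.q0 ^ 28 := mul_pos hp (pow_pos hq _)
  have hb1 : p * TH992.T.q0 ^ 28 < 1 := by
    have h1 : TH992.T.q0 ^ 28 ≤ TH992.T.q0 := by
      calc TH992.T.q0 ^ 28 ≤ TH992.T.q0 ^ 1 :=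
            pow_le_pow_of_le_one hq.le TH992.T.q0_le (by norm_num)
        _ = TH992.T.q0 := pow_one _
    have h2 : TH992.T.q0 < 1 := by
      unfold TH992.T.q0
      exact pow_lt_one₀ (by norm_num) (by norm_num) (by norm_num)
    calc p * TH992.T.q0 ^ 28 ≤ 1 * TH992.T.q0 := mul_le_mul hp1 h1 (pow_nonneg hq.le _) zero_le_one
      _ < 1 := by rw [one_mul]; exact h2
  refine ⟨20 * L * M, c0 / (80 * L), -Real.log (p * TH992.T.q0 ^ 28), ?_, ?_, ?_, ?_⟩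
  · calc 1 ≤ 20 * 2 * 64 := by norm_num
      _ ≤ 20 * L * M := Nat.mul_le_mul (Nat.mul_le_mul_left _ hL) hM
  · have : (0:ℝ) < L := by
      have : 0 < L := by omega
      exact_mod_cast this
    positivity
  · rw [neg_pos]
    exact Real.log_neg hb hb1
  intro n K hK hn
  obtain ⟨r, hr⟩ : ∃ r : ℕ, r = 2 * n / (40 * L * M * (K + 1)) := ⟨_, rfl⟩
  have hD : 0 < 40 * L * M * (K + 1) := by
    have h1 : 0 < L := by omega
    have h2 : 0 < M := by omega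
    positivity
  have hDn : 40 * L * M * (K + 1) ≤ 2 * n := by
    calc 40 * L * M * (K + 1) = 2 * (20 * L * M * (K + 1)) := by ring
      _ ≤ 2 * n := Nat.mul_le_mul_left _ hn
  have hr1 : 1 ≤ r := by
    rw [hr, Nat.one_le_div_iff hD]
    exact hDn
  have hr2 : 40 * L * M * (K + 1) * r ≤ 2 * n := by
    rw [hr]
    exact Nat.mul_div_le _ _
  have hr3 : 2 * n ≤ 80 * L * M * (K + 1) * r := by
    have h1 : 2 * n < 40 * L * M * (K + 1) * (r + 1) := by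
      rw [hr]
      exact Nat.lt_mul_div_succ _ hD
    have h2 : 40 * L * M * (K + 1) * (r + 1) ≤ 40 * L * M * (K + 1) * (2 * r) :=
      Nat.mul_le_mul_left _ (by omega)
    calc 2 * n ≤ 40 * L * M * (K + 1) * (2 * r) := (h1.trans_le h2).le
      _ = 80 * L * M * (K + 1) * r := by ring
  obtain ⟨m, hm⟩ : ∃ m : ℕ, m = M * r := ⟨_, rfl⟩
  have hm64 : 64 ≤ m := by
    rw [hm]
    calc 64 ≤ M := hM
      _ = M * 1 := by ring
      _ ≤ M * r := Nat.mul_le_mul_left _ hr1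
  have e1 : 40 * (L * m) * (K + 1) ≤ 2 * n := by
    calc 40 * (L * m) * (K + 1) = 40 * L * M * (K + 1) * r := by rw [hm]; ring
      _ ≤ 2 * n := hr2
  have e2 : 2 * n ≤ 80 * (L * m) * (K + 1) := by
    calc 2 * n ≤ 80 * L * M * (K + 1) * r := hr3
      _ = 80 * (L * m) * (K + 1) := by rw [hm]; ring
  have hG : Gm n (L * m : ℕ) K := by
    refine ⟨?_, hK, ?_⟩
    · have : 2 * 64 ≤ L * m := Nat.mul_le_mul hL hm64
      exact_mod_cast this
    · unfold cc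
      have : (40 * ((L * m : ℕ) : ℤ) * ((K:ℤ) + 1)) ≤ 2 * n := by exact_mod_cast e1
      linarith
  have hn2 : 2 * (n:ℤ) ≤ 80 * ((L * m : ℕ) : ℤ) * ((K:ℤ) + 1) := by exact_mod_cast e2
  have hyp : Hyp c0 p L m := by
    intro S hS
    have h1 := hg r hr1 S (by rw [← hm]; exact hS)
    rw [← hm] at h1
    refine h1.trans ?_
    apply Pr_mono ok12
    intro F _ hF
    exact hF.2.1
  have h1 := snake_pr (by omega) (by omega) hp.le hG hn2 hyp
  have hK0 : 0 < K := by omega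
  have hn0 : 0 < n := by
    by_contra hc
    have : n = 0 := by omega
    rw [this] at hDn
    omega
  -- the probability
  have h2 : Real.exp (-(-Real.log (p * TH992.T.q0 ^ 28) * ((K:ℝ) + 1) ^ 2)) ≤
      p ^ (K * K) * TH992.T.q0 ^ (28 * (K + 1) ^ 2) := by
    have e3 : Real.exp (-(-Real.log (p * TH992.T.q0 ^ 28) * ((K:ℝ) + 1) ^ 2)) =
        (p * TH992.T.q0 ^ 28) ^ ((K + 1) ^ 2) := by
      have : -(-Real.log (p * TH992.T.q0 ^ 28) * ((K:ℝ) + 1) ^ 2) =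
          (((K + 1) ^ 2 : ℕ) : ℝ) * Real.log (p * TH992.T.q0 ^ 28) := by
        push_cast; ring
      rw [this, Real.exp_nat_mul, Real.exp_log hb]
    rw [e3, mul_pow, ← pow_mul]
    apply mul_le_mul_of_nonneg_right _ (pow_nonneg hq.le _)
    apply pow_le_pow_of_le_one hp.le hp1
    nlinarith
  refine h2.trans (h1.trans ?_)
  apply Pr_mono ok12
  rintro F hF ⟨f1, f2, f3⟩
  refine le_trans ?_ (count hc0 hL hm64 hG hF f1 f2 f3)
  have hLr : (0:ℝ) < L := by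
    have : 0 < L := by omega
    exact_mod_cast this
  have hKr : (1:ℝ) ≤ K := by exact_mod_cast hK0
  have hnr : (0:ℝ) < n := by exact_mod_cast hn0
  have hmr : (0:ℝ) < m := by
    have : 0 < m := by omega
    exact_mod_cast this
  -- `n ≤ 80 L m K`
  have e4 : (n:ℝ) ≤ 80 * L * (m * K) := by
    have e5 : (2 * n : ℝ) ≤ 80 * (L * m) * (K + 1) := by exact_mod_cast e2
    have e6 : (0:ℝ) < L * m := by positivity
    nlinarith
  have e7 : (n:ℝ) ^ (3/4:ℝ) ≤ 80 * L * ((m:ℝ) ^ (3/4:ℝ) * (K:ℝ) ^ (3/4:ℝ)) := by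
    have e8 := Real.rpow_le_rpow hnr.le e4 (by norm_num : (0:ℝ) ≤ 3/4)
    rw [Real.mul_rpow (by positivity) (by positivity), Real.mul_rpow hmr.le (by positivity)] at e8
    refine e8.trans ?_
    apply mul_le_mul_of_nonneg_right _ (by positivity)
    have e9 : (1:ℝ) ≤ 80 * L := by
      have : (1:ℝ) ≤ L := by
        have : 1 ≤ L := by omega
        exact_mod_cast this
      linarith
    calc (80 * (L:ℝ)) ^ (3/4:ℝ) ≤ (80 * (L:ℝ)) ^ (1:ℝ) :=
          Real.rpow_le_rpow_of_exponent_le e9 (by norm_num)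
      _ = 80 * L := Real.rpow_one _
  have e10 : (K:ℝ) ^ (5/4:ℝ) * (K:ℝ) ^ (3/4:ℝ) = K * K := by
    rw [← Real.rpow_add (by linarith)]
    norm_num
    ring
  calc c0 / (80 * L) * (K:ℝ) ^ (5/4:ℝ) * (n:ℝ) ^ (3/4:ℝ) ≤
        c0 / (80 * L) * (K:ℝ) ^ (5/4:ℝ) * (80 * L * ((m:ℝ) ^ (3/4:ℝ) * (K:ℝ) ^ (3/4:ℝ))) :=
        mul_le_mul_of_nonneg_left e7 (by positivity)
    _ = c0 * (m:ℝ) ^ (3/4:ℝ) * ((K:ℝ) ^ (5/4:ℝ) * (K:ℝ) ^ (3/4:ℝ)) := by
        field_simp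
    _ = (K:ℝ) * K * (c0 * (m:ℝ) ^ (3/4:ℝ)) := by rw [e10]; ring

/-- the lower bound of the tail -/
theorem low : ∃ c C : ℝ, 0 < c ∧ 0 < C ∧ ∀ n : ℕ, 1 ≤ n → ∀ x : ℝ, 1 ≤ x →
    x ≤ c * (n:ℝ) ^ (5/4:ℝ) → Real.exp (-(C * x ^ (8/5:ℝ))) ≤
      Pr (fun _ : Edg => (1/2:ℝ)) (boxE n)
        (fun F => x * (n:ℝ) ^ (3/4:ℝ) ≤ ((Pio n F).card : ℝ)) := by
  obtain ⟨A, c1, C1, hA, hc1, hC1, h⟩ := low_K
  obtain ⟨a, ha⟩ : ∃ a : ℝ, a = max 1 ((1 / c1) ^ (4/5:ℝ)) := ⟨_, rfl⟩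
  have ha1 : 1 ≤ a := by rw [ha]; exact le_max_left _ _
  have ha2 : (1 / c1) ^ (4/5:ℝ) ≤ a := by rw [ha]; exact le_max_right _ _
  have hAr : (1:ℝ) ≤ A := by exact_mod_cast hA
  refine ⟨(1 / (5 * a * A)) ^ (5/4:ℝ), C1 * (5 * a) ^ 2, by positivity, by positivity, ?_⟩
  intro n hn x hx hxn
  have hx0 : 0 < x := by linarith
  have hn0 : (0:ℝ) < n := by exact_mod_cast hn
  have hx4 : (1:ℝ) ≤ x ^ (4/5:ℝ) := Real.one_le_rpow hx (by norm_num)
  obtain ⟨y, hy⟩ : ∃ y : ℝ, y = (x / c1) ^ (4/5:ℝ) := ⟨_, rfl⟩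
  have hy0 : 0 ≤ y := by rw [hy]; positivity
  have hya : y ≤ a * x ^ (4/5:ℝ) := by
    rw [hy, div_eq_mul_one_div, Real.mul_rpow hx0.le (by positivity), mul_comm]
    exact mul_le_mul_of_nonneg_right ha2 (by positivity)
  obtain ⟨k, hk⟩ : ∃ k : ℕ, k = ⌈y / 2⌉₊ := ⟨_, rfl⟩
  have hk1 : y / 2 ≤ k := by rw [hk]; exact Nat.le_ceil _
  have hk2 : (k:ℝ) < y / 2 + 1 := by rw [hk]; exact Nat.ceil_lt_add_one (by positivity)
  obtain ⟨K, hK⟩ : ∃ K : ℕ, K = 2 * k + 1 := ⟨_, rfl⟩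
  have hKr : (K:ℝ) = 2 * k + 1 := by rw [hK]; push_cast; ring
  have hK1 : y ≤ K := by rw [hKr]; linarith
  have hK2 : (K:ℝ) + 1 ≤ 5 * a * x ^ (4/5:ℝ) := by
    rw [hKr]
    nlinarith
  have hAn : A * (K + 1) ≤ n := by
    have e1 : (A:ℝ) * ((K:ℝ) + 1) ≤ n := by
      have e2 : x ^ (4/5:ℝ) ≤ 1 / (5 * a * A) * n := by
        have e3 := Real.rpow_le_rpow hx0.le hxn (by norm_num : (0:ℝ) ≤ 4/5)
        rw [Real.mul_rpow (by positivity) (by positivity), ← Real.rpow_mul (by positivity),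
          ← Real.rpow_mul hn0.le] at e3
        norm_num at e3
        norm_num
        exact e3
      have e4 : 5 * a * x ^ (4/5:ℝ) ≤ 5 * a * (1 / (5 * a * A) * n) :=
        mul_le_mul_of_nonneg_left e2 (by positivity)
      have e5 : 5 * a * (1 / (5 * a * A) * n) = n / A := by
        field_simp
      rw [e5] at e4
      have e6 := hK2.trans e4
      rw [le_div_iff₀ (by linarith)] at e6
      linarith
    exact_mod_cast e1
  have h1 := h n K (by omega) hAn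
  have e1 : Real.exp (-(C1 * (5 * a) ^ 2 * x ^ (8/5:ℝ))) ≤
      Real.exp (-(C1 * ((K:ℝ) + 1) ^ 2)) := by
    apply Real.exp_le_exp.2
    have e2 : ((K:ℝ) + 1) ^ 2 ≤ (5 * a * x ^ (4/5:ℝ)) ^ 2 :=
      pow_le_pow_left₀ (by positivity) hK2 2
    have e3 : (x ^ (4/5:ℝ)) ^ 2 = x ^ (8/5:ℝ) := by
      rw [← Real.rpow_natCast, ← Real.rpow_mul hx0.le]
      norm_num
    rw [mul_pow, e3] at e2
    have e4 := mul_le_mul_of_nonneg_left e2 hC1.le
    linarith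
  refine e1.trans (h1.trans ?_)
  apply Pr_mono ok12
  intro F _ hF
  refine le_trans ?_ hF
  apply mul_le_mul_of_nonneg_right _ (by positivity)
  have e5 : x ≤ c1 * y ^ (5/4:ℝ) := by
    rw [hy, ← Real.rpow_mul (by positivity)]
    norm_num
    field_simp
    exact le_rfl
  refine e5.trans ?_
  apply mul_le_mul_of_nonneg_left _ hc1.le
  exact Real.rpow_le_rpow hy0 hK1 (by norm_num)

end Run7.h537.PT
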