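import Pool.Agent.Run7.h537.PT.Cell

/-! Probability of the snake. -/

set_option autoImplicit false

namespace Run7.h537.PT

open H974 H12S Finset Pool.Agent.W92.DP TH992.T

theorem ok12 : Ok (fun _ : Edg => (1/2:ℝ)) := okq (by norm_num) (by norm_num)

theorem harris_all {ι : Type*} {S : Finset Edg} (T : Finset ι) (A : ι → Finset Edg → Prop)
    (hA : ∀ i ∈ T, ∀ F G : Finset Edg, F ⊆ G → A i F → A i G) {q : ℝ} (hq : 0 ≤ q)
    (h : ∀ i ∈ T, q ≤ Pr (fun _ : Edg => (1/2:ℝ)) S (A i)) :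
    q ^ T.card ≤ Pr (fun _ : Edg => (1/2:ℝ)) S (fun F => ∀ i ∈ T, A i F) := by
  classical
  induction T using Finset.induction_on with
  | empty =>
    rw [card_empty, pow_zero]
    refine le_of_eq ?_
    symm
    exact Pr_true _ (fun F _ i hi => absurd hi (Finset.notMem_empty i))
  | insert i T hi ih =>
    have ih' := ih (fun j hj => hA j (mem_insert_of_mem hj)) (fun j hj => h j (mem_insert_of_mem hj))
    have h1 := h i (mem_insert_self _ _)
    have h2 := Pr_harris ok12 (S := S) (A := fun F => ∀ i ∈ T, A i F) (B := A i)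
      (fun F G hFG _ hF j hj => hA j (mem_insert_of_mem hj) F G hFG (hF j hj))
      (fun F G hFG _ hF => hA i (mem_insert_self _ _) F G hFG hF)
    rw [card_insert_of_notMem hi, pow_succ]
    refine (mul_le_mul ih' h1 hq ((pow_nonneg hq _).trans ih')).trans (h2.trans ?_)
    apply Pr_mono ok12
    intro F _ hF
    rw [forall_mem_insert]
    exact ⟨hF.2, hF.1⟩

/-- the same for decreasing events -/
theorem harris_all' {ι : Type*} {S : Finset Edg} (T : Finset ι) (A : ι → Finset Edg → Prop)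
    (hA : ∀ i ∈ T, ∀ F G : Finset Edg, F ⊆ G → A i F → A i G) {q : ℝ} (hq : 0 ≤ q)
    (h : ∀ i ∈ T, q ≤ Pr (fun _ : Edg => (1/2:ℝ)) S (fun F => ¬ A i F)) :
    q ^ T.card ≤ Pr (fun _ : Edg => (1/2:ℝ)) S (fun F => ∀ i ∈ T, ¬ A i F) := by
  classical
  induction T using Finset.induction_on with
  | empty =>
    rw [card_empty, pow_zero]
    refine le_of_eq ?_
    symm
    exact Pr_true _ (fun F _ i hi => absurd hi (Finset.notMem_empty i))
  | insert i T hi ih =>
    have ih' := ih (fun j hj => hA j (mem_insert_of_mem hj)) (fun j hj => h j (mem_insert_of_mem hj))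
    have h1 := h i (mem_insert_self _ _)
    have h2 := Pr_harris_dd ok12 (S := S) (A := fun F => ∃ i ∈ T, A i F) (B := A i)
      (fun F G hFG _ hF => by
        obtain ⟨j, hj, hj2⟩ := hF
        exact ⟨j, hj, hA j (mem_insert_of_mem hj) F G hFG hj2⟩)
      (fun F G hFG _ hF => hA i (mem_insert_self _ _) F G hFG hF)
    rw [← Pr_not, ← Pr_not] at h2
    have e : Pr (fun _ : Edg => (1/2:ℝ)) S (fun F => ¬ ∃ i ∈ T, A i F) =
        Pr (fun _ : Edg => (1/2:ℝ)) S (fun F => ∀ i ∈ T, ¬ A i F) := by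
      apply Pr_congr
      intro F _
      push Not
      exact Iff.rfl
    rw [e] at h2
    rw [card_insert_of_notMem hi, pow_succ]
    refine (mul_le_mul ih' h1 hq ((pow_nonneg hq _).trans ih')).trans (h2.trans ?_)
    apply Pr_mono ok12
    intro F _ hF
    rw [forall_mem_insert]
    refine ⟨hF.2, ?_⟩
    intro j hj hc
    exact hF.1 ⟨j, hj, hc⟩

theorem q0_pow_anti {a b : ℕ} (h : a ≤ b) : q0 ^ b ≤ q0 ^ a :=
  pow_le_pow_of_le_one q0_pos.le q0_le h

theorem gate_pr {n : ℕ} {U : ℤ} {K : ℕ} (h : Gm n U K) {i j : ℕ} (hi : i < K) (hj : j ≤ K) :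
    q0 ^ 3 ≤ Pr (fun _ : Edg => (1/2:ℝ)) (boxE n) (gate n U i j) := by
  have hU := h.U1
  have hs := (gate_sub (n := n) (U := U) hi hj).trans (E1_sub h)
  have s1 : LRE (cc n U i - 9 * U) (cc n U i + 9 * U) (cc n U j - 32 * U) (cc n U j - 28 * U) ⊆
      boxE n := (LRE_subset_RE.trans (RE_subset le_rfl le_rfl le_rfl (by omega))).trans hs
  have s2 : LRE (cc n U i - 9 * U) (cc n U i + 9 * U) (cc n U j - 12 * U) (cc n U j - 8 * U) ⊆
      boxE n := (LRE_subset_RE.trans (RE_subset le_rfl le_rfl (by omega) le_rfl)).trans hs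
  have s3 : TBE (cc n U i - 9 * U) (cc n U i + 9 * U) (cc n U j - 32 * U) (cc n U j - 8 * U) ⊆
      boxE n := TBE_subset_RE.trans hs
  have p1 : q0 ≤ Pr (fun _ : Edg => (1/2:ℝ)) (boxE n)
      (LRc (cc n U i - 9 * U) (cc n U i + 9 * U) (cc n U j - 32 * U) (cc n U j - 28 * U)) := by
    rw [pr_LRc _ s1]
    have := hh_wide (w := cc n U i + 9 * U - (cc n U i - 9 * U))
      (h := cc n U j - 28 * U - (cc n U j - 32 * U)) (m := 0) (by omega) (by omega)
      (by push_cast; omega)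
    simpa using this
  have p2 : q0 ≤ Pr (fun _ : Edg => (1/2:ℝ)) (boxE n)
      (LRc (cc n U i - 9 * U) (cc n U i + 9 * U) (cc n U j - 12 * U) (cc n U j - 8 * U)) := by
    rw [pr_LRc _ s2]
    have := hh_wide (w := cc n U i + 9 * U - (cc n U i - 9 * U))
      (h := cc n U j - 8 * U - (cc n U j - 12 * U)) (m := 0) (by omega) (by omega)
      (by push_cast; omega)
    simpa using this
  have p3 : q0 ≤ Pr (fun _ : Edg => (1/2:ℝ)) (boxE n)
      (TBc (cc n U i - 9 * U) (cc n U i + 9 * U) (cc n U j - 32 * U) (cc n U j - 8 * U)) := by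
    rw [pr_TBc _ s3]
    have := hh_wide (w := cc n U j - 8 * U - (cc n U j - 32 * U))
      (h := cc n U i + 9 * U - (cc n U i - 9 * U)) (m := 0) (by omega) (by omega)
      (by push_cast; omega)
    simpa using this
  have h1 := Pr_harris ok12 (LRc_incr (boxE n) (cc n U i - 9 * U) (cc n U i + 9 * U)
    (cc n U j - 12 * U) (cc n U j - 8 * U)) (TBc_incr (boxE n) (cc n U i - 9 * U)
    (cc n U i + 9 * U) (cc n U j - 32 * U) (cc n U j - 8 * U))
  have h2 := Pr_harris ok12 (S := boxE n) (A := LRc (cc n U i - 9 * U) (cc n U i + 9 * U)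
    (cc n U j - 32 * U) (cc n U j - 28 * U))
    (B := fun F => LRc (cc n U i - 9 * U) (cc n U i + 9 * U) (cc n U j - 12 * U)
      (cc n U j - 8 * U) F ∧ TBc (cc n U i - 9 * U) (cc n U i + 9 * U) (cc n U j - 32 * U)
      (cc n U j - 8 * U) F)
    (LRc_incr _ _ _ _ _) (fun F G hFG _ hF => ⟨hF.1.mono hFG, hF.2.mono hFG⟩)
  have hq := q0_pos.le
  have h3 : q0 * q0 ≤ _ := (mul_le_mul p2 p3 hq (hq.trans p2)).trans h1
  have h4 : q0 * (q0 * q0) ≤ _ := (mul_le_mul p1 h3 (mul_nonneg hq hq) (hq.trans p1)).trans h2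
  calc q0 ^ 3 = q0 * (q0 * q0) := by ring
    _ ≤ _ := h4

theorem lx_lt_rx {n : ℕ} {U : ℤ} {K : ℕ} (h : Gm n U K) {i : ℕ} (hi : i ≤ K) :
    lx n U i < rx n U K i ∧ rx n U K i - lx n U i ≤ 2 * n := by
  have hU := h.U1
  have hK1 := h.K1
  unfold lx rx
  have a0 := h.lo i
  have a1 := h.lo (i - 1)
  have a5 := h.fit
  split_ifs with h1 h2 h2
  · omega
  · have := h.hi (show i < K by omega)
    omega
  · have := h.hi (show i - 1 < K by omega)
    omega
  · have := h.hi (show i < K by omega)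
    have := cc_lt (n := n) (U := U) (by omega) (show i - 1 < i by omega)
    omega

theorem conn_pr {n : ℕ} {U : ℤ} {K : ℕ} (h : Gm n U K) (hn : 2 * (n:ℤ) ≤ 80 * U * (K + 1))
    {i : ℕ} (hi : i ≤ K) :
    q0 ^ (6 * K + 7) ≤ Pr (fun _ : Edg => (1/2:ℝ)) (boxE n) (conn n U K i) := by
  have hU := h.U1
  have hs := (conn_sub (n := n) (U := U) hi).trans (E1_sub h)
  unfold conn
  rw [pr_LRc _ (LRE_subset_RE.trans hs)]
  obtain ⟨h1, h2⟩ := lx_lt_rx h hi
  have h3 : ly n U K i + 4 * U - ly n U K i = 4 * U := by ring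
  rw [h3]
  have := hh_wide (w := rx n U K i - lx n U i) (h := 4 * U) (m := 3 * (K + 1)) (by omega)
    (by omega) (by
      push_cast
      have h4 : 0 ≤ U * ((K:ℤ) + 1) := by positivity
      nlinarith)
  refine le_trans (le_of_eq ?_) this
  congr 1
  ring

theorem wall_pr {n : ℕ} {U : ℤ} {K : ℕ} (h : Gm n U K) (hn : 2 * (n:ℤ) ≤ 80 * U * (K + 1))
    {x : ℤ} (b : Prop) [Decidable b]
    (hs : RE x (x + 4 * U) (wb n U b) (wt n U K b) ⊆ boxE n) :
    q0 ^ (8 * K + 9) ≤ Pr (fun _ : Edg => (1/2:ℝ)) (boxE n) (wall n U K x b) := by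
  have hU := h.U1
  have a0 := h.lo 0
  have a1 := h.lo K
  have a2 : cc n U 0 ≤ cc n U K := cc_le (by omega) (Nat.zero_le K)
  have a3 := h.fit
  have hK1 := h.K1
  have a4 := cc_lt (n := n) (U := U) (by omega) (show 0 < K by omega)
  have h1 : 0 ≤ wt n U K b - wb n U b ∧ wt n U K b - wb n U b ≤ 2 * n := by
    unfold wt wb
    split_ifs <;> omega
  have e1 : Pr (fun _ : Edg => (1/2:ℝ)) (boxE n) (wall n U K x b) =
      1 - Pr (fun _ : Edg => (1/2:ℝ)) (boxE n) (LRc x (x + 4 * U) (wb n U b) (wt n U K b)) := by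
    unfold wall
    exact Pr_not _ _
  rw [e1, pr_LRc _ (LRE_subset_RE.trans hs)]
  have h3 : x + 4 * U - x = 4 * U := by ring
  rw [h3]
  have e2 := hh_dual (q := 1/2) (w := 4 * U) (h := wt n U K b - wb n U b) (by omega) h1.1
  have e3 : (1:ℝ) - 1/2 = 1/2 := by norm_num
  rw [e3] at e2
  rw [e2]
  have := hh_wide (w := wt n U K b - wb n U b + 1) (h := 4 * U - 1) (m := 4 * (K + 1)) (by omega)
    (by omega) (by
      push_cast
      have h4 : 0 ≤ U * ((K:ℤ) + 1) := by positivity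
      nlinarith)
  have h5 : q0 ^ (8 * K + 9) = q0 ^ (2 * (4 * (K + 1)) + 1) := by
    congr 1
    ring
  rw [h5]
  linarith

theorem open_pr {n : ℕ} {U : ℤ} {K : ℕ} (h : Gm n U K) (hn : 2 * (n:ℤ) ≤ 80 * U * (K + 1)) :
    q0 ^ (10 * (K + 1) ^ 2) ≤ Pr (fun _ : Edg => (1/2:ℝ)) (boxE n) (openEv n U K) := by
  have h1 := harris_all (S := boxE n) (range K ×ˢ range (K + 1)) (fun q => gate n U q.1 q.2)
    (fun q _ F G hFG hF => ⟨hF.1.mono hFG, hF.2.1.mono hFG, hF.2.2.mono hFG⟩)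
    (q := q0 ^ 3) (pow_nonneg q0_pos.le _) (fun q hq => by
      rw [mem_product, mem_range, mem_range] at hq
      exact gate_pr h hq.1 (by omega))
  have h2 := harris_all (S := boxE n) (range (K + 1)) (fun i => conn n U K i)
    (fun q _ F G hFG hF => hF.mono hFG)
    (q := q0 ^ (6 * K + 7)) (pow_nonneg q0_pos.le _) (fun i hi => by
      rw [mem_range] at hi
      exact conn_pr h hn (by omega))
  have h3 := Pr_harris ok12 (S := boxE n)
    (A := fun F => ∀ q ∈ range K ×ˢ range (K + 1), gate n U q.1 q.2 F)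
    (B := fun F => ∀ i ∈ range (K + 1), conn n U K i F)
    (fun F G hFG _ hF q hq => ⟨(hF q hq).1.mono hFG, (hF q hq).2.1.mono hFG,
      (hF q hq).2.2.mono hFG⟩) (fun F G hFG _ hF q hq => (hF q hq).mono hFG)
  have h4 := (mul_le_mul h1 h2 (pow_nonneg (pow_nonneg q0_pos.le _) _)
    ((pow_nonneg (pow_nonneg q0_pos.le _) _).trans h1)).trans h3
  rw [← pow_mul, ← pow_mul, ← pow_add, card_product, card_range, card_range] at h4
  refine (q0_pow_anti ?_).trans (h4.trans ?_)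
  · nlinarith
  · apply Pr_mono ok12
    intro F _ hF
    refine ⟨fun i hi j hj => ?_, fun i hi => ?_⟩
    · exact hF.1 (i, j) (mem_product.2 ⟨mem_range.2 hi, mem_range.2 (by omega)⟩)
    · exact hF.2 i (mem_range.2 (by omega))

theorem walls_pr {n : ℕ} {U : ℤ} {K : ℕ} (h : Gm n U K) (hn : 2 * (n:ℤ) ≤ 80 * U * (K + 1)) :
    q0 ^ (18 * (K + 1) ^ 2) ≤ Pr (fun _ : Edg => (1/2:ℝ)) (boxE n) (wallEv n U K) := by
  have h1 := harris_all' (S := boxE n) (range K) (fun i => LRc (cc n U i - 14 * U)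
    (cc n U i - 14 * U + 4 * U) (wb n U (i % 2 = 1)) (wt n U K (i % 2 = 1)))
    (fun q _ F G hFG hF => hF.mono hFG)
    (q := q0 ^ (8 * K + 9)) (pow_nonneg q0_pos.le _) (fun i hi => by
      rw [mem_range] at hi
      exact wall_pr h hn _ ((wl_sub hi).trans (E2_sub h)))
  have h2 := harris_all' (S := boxE n) (range K) (fun i => LRc (cc n U i + 10 * U)
    (cc n U i + 10 * U + 4 * U) (wb n U (i % 2 = 0)) (wt n U K (i % 2 = 0)))
    (fun q _ F G hFG hF => hF.mono hFG)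
    (q := q0 ^ (8 * K + 9)) (pow_nonneg q0_pos.le _) (fun i hi => by
      rw [mem_range] at hi
      exact wall_pr h hn _ ((wr_sub hi).trans (E2_sub h)))
  have h3 := Pr_harris_dd ok12 (S := boxE n)
    (A := fun F => ∃ i ∈ range K, LRc (cc n U i - 14 * U)
      (cc n U i - 14 * U + 4 * U) (wb n U (i % 2 = 1)) (wt n U K (i % 2 = 1)) F)
    (B := fun F => ∃ i ∈ range K, LRc (cc n U i + 10 * U)
      (cc n U i + 10 * U + 4 * U) (wb n U (i % 2 = 0)) (wt n U K (i % 2 = 0)) F)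
    (fun F G hFG _ hF => by
      obtain ⟨j, hj, hj2⟩ := hF
      exact ⟨j, hj, hj2.mono hFG⟩)
    (fun F G hFG _ hF => by
      obtain ⟨j, hj, hj2⟩ := hF
      exact ⟨j, hj, hj2.mono hFG⟩)
  rw [← Pr_not, ← Pr_not] at h3
  have e1 : Pr (fun _ : Edg => (1/2:ℝ)) (boxE n) (fun F => ¬ ∃ i ∈ range K,
      LRc (cc n U i - 14 * U)
      (cc n U i - 14 * U + 4 * U) (wb n U (i % 2 = 1)) (wt n U K (i % 2 = 1)) F) =
      Pr (fun _ : Edg => (1/2:ℝ)) (boxE n) (fun F => ∀ i ∈ range K, ¬ LRc (cc n U i - 14 * U)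
      (cc n U i - 14 * U + 4 * U) (wb n U (i % 2 = 1)) (wt n U K (i % 2 = 1)) F) := by
    apply Pr_congr
    intro F _
    push Not
    exact Iff.rfl
  have e2 : Pr (fun _ : Edg => (1/2:ℝ)) (boxE n) (fun F => ¬ ∃ i ∈ range K,
      LRc (cc n U i + 10 * U)
      (cc n U i + 10 * U + 4 * U) (wb n U (i % 2 = 0)) (wt n U K (i % 2 = 0)) F) =
      Pr (fun _ : Edg => (1/2:ℝ)) (boxE n) (fun F => ∀ i ∈ range K, ¬ LRc (cc n U i + 10 * U)
      (cc n U i + 10 * U + 4 * U) (wb n U (i % 2 = 0)) (wt n U K (i % 2 = 0)) F) := by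
    apply Pr_congr
    intro F _
    push Not
    exact Iff.rfl
  rw [e1, e2] at h3
  have h4 := (mul_le_mul h1 h2 (pow_nonneg (pow_nonneg q0_pos.le _) _)
    ((pow_nonneg (pow_nonneg q0_pos.le _) _).trans h1)).trans h3
  rw [← pow_mul, ← pow_add, card_range] at h4
  refine (q0_pow_anti ?_).trans (h4.trans ?_)
  · nlinarith
  · apply Pr_mono ok12
    intro F _ hF i hi
    refine ⟨fun hc => ?_, fun hc => ?_⟩
    · exact hF.1 ⟨i, mem_range.2 hi, hc⟩
    · exact hF.2 ⟨i, mem_range.2 hi, hc⟩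

/-- the snake -/
theorem snake_pr {c0 p : ℝ} {L m n K : ℕ} (hL : 1 ≤ L) (hm : 1 ≤ m) (hp : 0 ≤ p)
    (h : Gm n (L * m : ℕ) K) (hn : 2 * (n:ℤ) ≤ 80 * (L * m : ℕ) * (K + 1))
    (hyp : Hyp c0 p L m) :
    p ^ (K * K) * q0 ^ (28 * (K + 1) ^ 2) ≤ Pr (fun _ : Edg => (1/2:ℝ)) (boxE n)
      (fun F => CA c0 L m n K F ∧ openEv n (L * m : ℕ) K F ∧ wallEv n (L * m : ℕ) K F) := by
  have h1 := cells_pr hL hm hp h hyp (range K ×ˢ range K) (fun q hq => by
    rw [mem_product, mem_range, mem_range] at hq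
    exact hq)
  rw [card_product, card_range] at h1
  have h2 := open_pr h hn
  have h3 := walls_pr h hn
  have h4 := H984P.harris_signed ok12 (E1_sub h) (E2_sub h) (E12_disj h)
    (N := CA c0 L m n K) (f := openEv n (L * m : ℕ) K) (g := wallEv n (L * m : ℕ) K)
    (fun F _ => open_local h F) (fun F G hFG hF => open_mono hFG hF)
    (fun F _ => wall_local F) (fun F G hFG hG => wall_mono hFG hG)
    (fun F G _ _ a0 a1 a2 hF => CA_signed hL hm h a0 a1 a2 hF)
  refine le_trans ?_ h4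
  have e : q0 ^ (28 * (K + 1) ^ 2) = q0 ^ (10 * (K + 1) ^ 2) * q0 ^ (18 * (K + 1) ^ 2) := by
    rw [← pow_add]; congr 1; ring
  rw [e]
  have hq := q0_pos.le
  exact mul_le_mul h1 (mul_le_mul h2 h3 (pow_nonneg hq _) ((pow_nonneg hq _).trans h2))
    (mul_nonneg (pow_nonneg hq _) (pow_nonneg hq _)) ((pow_nonneg hp _).trans h1)

end Run7.h537.PT
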