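import Pool.Agent.Run7.h537.PT.Low
import Pool.Agent.Run7.h537.PT.An2

/-! The number of pivotal edges: the theorem in elementary terms. -/

set_option autoImplicit false

namespace Run7.h537.PT.Res

open Finset
open Pool.Agent.Y554.NE.Res (Edge edges Crossed edges_eq crossed_iff)

open Classical in
/-- The pivotal edges: the square is crossed if `e` is open and not crossed if `e` is closed (the
states of the other edges are kept). -/
noncomputable def pivotal (n : ℕ) (F : Finset Edge) : Finset Edge :=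
  (edges n).filter (fun e => Crossed n (insert e F) ∧ ¬ Crossed n (F.erase e))

/-- Expectation at `p = 1 / 2`. -/
noncomputable def expect (n : ℕ) (h : Finset Edge → ℝ) : ℝ :=
  (∑ F ∈ (edges n).powerset, h F) / 2 ^ (edges n).card

open Classical in
/-- Probability at `p = 1 / 2`. -/
noncomputable def prob (n : ℕ) (A : Finset Edge → Prop) : ℝ :=
  (((edges n).powerset.filter A).card : ℝ) / 2 ^ (edges n).card

/-! ### Comparison with the library -/

open H974 H12S H985T H389NS Pool.Agent.Y554.DP Pool.Agent.Y554.SN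

theorem pivotal_eq (n : ℕ) (F : Finset Edge) : pivotal n F = Piv n F := by
  classical
  ext e
  rw [mem_Piv]
  unfold pivotal
  rw [mem_filter, edges_eq, crossed_iff, crossed_iff]
  unfold Pv
  rw [Finset.coe_insert, Finset.coe_erase]

theorem expect_eq (n : ℕ) (h : Finset Edge → ℝ) :
    expect n h = ∑ F ∈ (boxE n).powerset, wu n F * h F := by
  unfold expect wu
  rw [edges_eq, ← Finset.mul_sum, div_eq_mul_inv, mul_comm, one_div, inv_pow]

theorem prob_eq (n : ℕ) (A : Finset Edge → Prop) [DecidablePred A] :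
    prob n A = ∑ F ∈ (boxE n).powerset.filter A, wu n F := by
  unfold prob wu
  rw [edges_eq, Finset.sum_const, nsmul_eq_mul, div_eq_mul_inv, one_div, inv_pow]
  congr 3
  ext F
  simp only [mem_filter]

theorem prob_eq' (n : ℕ) (A : Finset Edge → Prop) :
    prob n A = Pr (fun _ : Edg => (1/2:ℝ)) (boxE n) A := by
  classical
  rw [prob_eq]
  unfold Pr
  rw [Ex_eq, Finset.sum_filter]
  apply Finset.sum_congr rfl
  intro F _
  by_cases h : A F
  · rw [if_pos h, ind_of h, mul_one]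
  · rw [if_neg h, ind_not_of h, mul_zero]

theorem wu_nonneg (n : ℕ) (F : Finset Edg) : 0 ≤ wu n F := by unfold wu; positivity

theorem piv_le {n : ℕ} (hn : 1 ≤ n) (F : Finset Edg) :
    ((Piv n F).card : ℝ) ≤ 18 * (n:ℝ) ^ 2 := by
  have h1 : ((Piv n F).card : ℝ) ≤ ((boxE n).card : ℝ) := by
    exact_mod_cast card_le_card (Piv_sub n F)
  exact h1.trans (box_card hn)

/-- The number of pivotal edges. -/
theorem main : ∃ c C : ℝ, 0 < c ∧ 0 < C ∧ ∀ n : ℕ, 1 ≤ n →
    (∀ x : ℝ, 0 ≤ x → prob n (fun F => x * (n:ℝ) ^ (3 / 4 : ℝ) ≤ (pivotal n F).card) ≤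
      C * Real.exp (-(c * x ^ (8 / 5 : ℝ)))) ∧
    (∀ x : ℝ, 1 ≤ x → x ≤ c * (n:ℝ) ^ (5 / 4 : ℝ) → Real.exp (-(C * x ^ (8 / 5 : ℝ))) ≤
      prob n (fun F => x * (n:ℝ) ^ (3 / 4 : ℝ) ≤ (pivotal n F).card)) ∧
    (∀ k : ℕ, expect n (fun F => ((pivotal n F).card : ℝ) ^ k) ≤
      C ^ k * (k.factorial : ℝ) ^ (5 / 8 : ℝ) * ((n:ℝ) ^ (3 / 4 : ℝ)) ^ k) ∧
    (∀ k : ℕ, 1 ≤ k → (k:ℝ) ≤ c * (n:ℝ) ^ 2 →
      c ^ k * (k.factorial : ℝ) ^ (5 / 8 : ℝ) * ((n:ℝ) ^ (3 / 4 : ℝ)) ^ k ≤
        expect n (fun F => ((pivotal n F).card : ℝ) ^ k)) := by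
  classical
  obtain ⟨C0, hC0, hexp⟩ := piv_expM
  obtain ⟨c1, C1, hc1, hC1, htail⟩ := tail_of hC0
  obtain ⟨c2, C2, hc2, hC2, hlow⟩ := low
  obtain ⟨C3, hC3, hmom⟩ := mom_of hC0
  obtain ⟨c4, hc4, hml⟩ := mom_low hc2 hC2
  have hlow' : ∀ n : ℕ, 1 ≤ n → ∀ x : ℝ, 1 ≤ x → x ≤ c2 * (n:ℝ) ^ (5/4:ℝ) →
      Real.exp (-(C2 * x ^ (8/5:ℝ))) ≤
        prob n (fun F => x * (n:ℝ) ^ (3 / 4 : ℝ) ≤ (pivotal n F).card) := by
    intro n hn x hx hxn
    refine (hlow n hn x hx hxn).trans ?_
    rw [prob_eq']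
    apply Pr_mono ok12
    intro F _ hF
    rw [pivotal_eq]
    refine hF.trans ?_
    exact_mod_cast card_le_card inter_subset_left
  refine ⟨min (min c1 c2) c4, max (max C1 C2) C3, lt_min (lt_min hc1 hc2) hc4,
    lt_max_of_lt_left (lt_max_of_lt_left hC1), ?_⟩
  intro n hn
  have hn0 : (0:ℝ) < n := by exact_mod_cast hn
  have hc0 : 0 < min (min c1 c2) c4 := lt_min (lt_min hc1 hc2) hc4
  have i1 : min (min c1 c2) c4 ≤ c1 := (min_le_left _ _).trans (min_le_left _ _)
  have i2 : min (min c1 c2) c4 ≤ c2 := (min_le_left _ _).trans (min_le_right _ _)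
  have i4 : min (min c1 c2) c4 ≤ c4 := min_le_right _ _
  have j1 : C1 ≤ max (max C1 C2) C3 := (le_max_left _ _).trans (le_max_left _ _)
  have j2 : C2 ≤ max (max C1 C2) C3 := (le_max_right _ _).trans (le_max_left _ _)
  have j3 : C3 ≤ max (max C1 C2) C3 := le_max_right _ _
  refine ⟨?_, ?_, ?_, ?_⟩
  · intro x hx
    rw [prob_eq]
    have h1 := htail n hn (boxE n).powerset (wu n) (fun F => (Piv n F).card)
      (fun F _ => wu_nonneg n F) (fun F _ => piv_le hn F) (hexp n hn) x hx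
    simp only [pivotal_eq]
    refine h1.trans ?_
    have hX : 0 ≤ x ^ (8/5:ℝ) := Real.rpow_nonneg hx _
    have e1 : Real.exp (-(c1 * x ^ (8/5:ℝ))) ≤
        Real.exp (-(min (min c1 c2) c4 * x ^ (8/5:ℝ))) := by
      apply Real.exp_le_exp.2
      have := mul_le_mul_of_nonneg_right i1 hX
      linarith
    exact mul_le_mul j1 e1 (Real.exp_pos _).le (hC1.le.trans j1)
  · intro x hx hxn
    have hx0 : 0 ≤ x := by linarith
    have h1 : x ≤ c2 * (n:ℝ) ^ (5/4:ℝ) :=
      hxn.trans (mul_le_mul_of_nonneg_right i2 (by positivity))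
    refine le_trans ?_ (hlow' n hn x hx h1)
    apply Real.exp_le_exp.2
    have := mul_le_mul_of_nonneg_right j2 (Real.rpow_nonneg hx0 (8/5:ℝ))
    linarith
  · intro k
    rw [expect_eq]
    have h1 := hmom n hn (boxE n).powerset (wu n) (fun F => (Piv n F).card)
      (fun F _ => wu_nonneg n F) (fun F _ => piv_le hn F) (hexp n hn) k
    simp only [pivotal_eq]
    refine h1.trans ?_
    apply mul_le_mul_of_nonneg_right _ (by positivity)
    apply mul_le_mul_of_nonneg_right _ (by positivity)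
    exact pow_le_pow_left₀ (by linarith) j3 k
  · intro k hk hkn
    rw [expect_eq]
    have h1 := hml n hn (boxE n).powerset (wu n) (fun F => (Piv n F).card)
      (fun F _ => wu_nonneg n F) (fun x hx hxn => by
        have h2 := hlow' n hn x hx hxn
        rw [prob_eq] at h2
        simp only [pivotal_eq] at h2
        exact h2) k hk (hkn.trans (mul_le_mul_of_nonneg_right i4 (by positivity)))
    simp only [pivotal_eq]
    refine le_trans ?_ h1
    apply mul_le_mul_of_nonneg_right _ (by positivity)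
    apply mul_le_mul_of_nonneg_right _ (by positivity)
    exact pow_le_pow_left₀ hc0.le i4 k

end Run7.h537.PT.Res
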